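import Pool.Agent.Lib_MP_55d5ef_t.TGeo

/-!
# Floor gluings and translations on the tiles
-/

open Lib_MP_55d5ef_geo Lib_MP_55d5ef Lib_MP_55d5ef_q

namespace MP55T

/-- lattice representative of the class `c` -/
def rpc (c : ℕ) : Fin 3 → ℤ := ![repx c, 0, repz c]

/-- floor entry: the tile `(c, l)` is glued to the tile `(partner, l')` by a permutation -/
def fle (c l : ℕ) : ℕ × List ℕ := (fll.getD c []).getD l (0, [])

/-- linear part of the side pairing on scaled triples -/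
def SRz (A : ℕ) (w : ℤ × ℤ × ℤ) : ℤ × ℤ × ℤ :=
  if A = 3 then (-w.1 + w.2.1 + w.2.2, w.2.1, w.2.2)
  else if A = 4 then (-w.2.1 + w.2.2, -w.1 + w.2.2, w.2.2)
  else (w.1, w.1 - w.2.1, w.2.2)

/-- partner and reflection index of a class -/
def prc (c : ℕ) : ℕ := (pairs.getD c (0, 0)).1
def rfc (c : ℕ) : ℕ := (pairs.getD c (0, 0)).2

def flB (c l : ℕ) : Bool :=
  decide ((fle c l).1 < 12) && injB (fle c l).2 &&
  all4 fun v => decide (pm (fle c l).2 v < 4) &&
    decide (SRz (rfc c) (Wt (axl.getD c 0) l v)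
      = Wt (axl.getD (prc c) 0) (fle c l).1 (pm (fle c l).2 v))

lemma chk_fl : ∀ c < 40, ∀ l < 12, flB c l = true := by decide +kernel

lemma chk_cls : ∀ c < 40, cls (rpc c) = c := by decide +kernel

lemma chk_prc : ∀ c < 40, prc c < 40 := by decide +kernel

lemma cls_lt (k : Fin 3 → ℤ) : cls k < 40 := by
  unfold cls
  have h1 := Int.emod_nonneg (k 0) (show (2:ℤ) ≠ 0 by norm_num)
  have h2 := Int.emod_lt_of_pos (k 0) (show (0:ℤ) < 2 by norm_num)
  have h3 := Int.emod_nonneg (k 2 - 11 * k 1 - 6 * (k 0 - k 0 % 2)) (show (20:ℤ) ≠ 0 by norm_num)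
  have h4 := Int.emod_lt_of_pos (k 2 - 11 * k 1 - 6 * (k 0 - k 0 % 2)) (show (0:ℤ) < 20 by norm_num)
  omega

/-- the target cell of the side pairing at `k` -/
def tgt (k : Fin 3 → ℤ) : Fin 3 → ℤ := rpc (prt k)

lemma prt_eq (k : Fin 3 → ℤ) : prt k = prc (cls k) := rfl

lemma axk_tgt (k : Fin 3 → ℤ) : axk (tgt k) = axl.getD (prc (cls k)) 0 := by
  unfold axk tgt
  rw [prt_eq, chk_cls _ (chk_prc _ (cls_lt k))]

lemma SR_rv (A : ℕ) (w : ℤ × ℤ × ℤ) : SR A (rv w) = rv (SRz A w) := by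
  unfold SR SRz rv
  split_ifs <;>
  · funext i
    fin_cases i <;> simp <;> ring

lemma SR_add (A : ℕ) (u v : P3) : SR A (u + v) = SR A u + SR A v := by
  unfold SR
  split_ifs <;>
  · funext i
    fin_cases i <;> simp <;> ring

lemma SR_smul (A : ℕ) (r : ℝ) (u : P3) : SR A (r • u) = r • SR A u := by
  unfold SR
  split_ifs <;>
  · funext i
    fin_cases i <;> simp <;> ring

lemma phiK_eq (k : Fin 3 → ℤ) (z : P3) : phiK k z = SR (rfc (cls k)) (z - kz k) + kz (tgt k) := by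
  unfold phiK
  have : (![(repx (prt k) : ℝ), 0, (repz (prt k) : ℝ)] : P3) = kz (tgt k) := by
    funext i; fin_cases i <;> simp [kz, tgt, rpc]
  rw [this]
  rfl

/-- the tile opposite to `(k, l)` under the side pairing -/
def flt (t : Tl) : Tl := (tgt t.1, (fle (cls t.1) t.2).1)

/-- vertex correspondence -/
def flp (t : Tl) (v : ℕ) : ℕ := pm (fle (cls t.1) t.2).2 v

lemma fl_dec {t : Tl} (ht : t.2 < 12) : (flt t).2 < 12 ∧
    (∀ v < 4, flp t v < 4) ∧ (∀ v < 4, ∀ w < 4, flp t v = flp t w → v = w) ∧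
    (∀ v < 4, SRz (rfc (cls t.1)) (Wt (axk t.1) t.2 v)
      = Wt (axk (flt t).1) (flt t).2 (flp t v)) := by
  have h := chk_fl _ (cls_lt t.1) _ ht
  simp only [flB, Bool.and_eq_true, decide_eq_true_eq] at h
  obtain ⟨⟨h1, h2⟩, h3⟩ := h
  refine ⟨h1, fun v hv => ?_, fun v hv w hw hvw => ?_, fun v hv => ?_⟩
  · have := all4_sound h3 v hv
    simp only [Bool.and_eq_true, decide_eq_true_eq] at this
    exact this.1
  · have := all4_sound (all4_sound h2 v hv) w hw
    simp only [Bool.or_eq_true, Bool.not_eq_true', decide_eq_false_iff_not,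
      decide_eq_true_eq] at this
    rcases this with this | this
    · exact absurd hvw this
    · exact this
  · have := all4_sound h3 v hv
    simp only [Bool.and_eq_true, decide_eq_true_eq] at this
    have e : axk (flt t).1 = axl.getD (prc (cls t.1)) 0 := axk_tgt t.1
    rw [e]
    exact this.2

/-- the side pairing maps vertices to vertices -/
lemma phiK_vt {t : Tl} (ht : t.2 < 12) {v : ℕ} (hv : v < 4) :
    phiK t.1 (vt t v) = vt (flt t) (flp t v) := by
  obtain ⟨-, -, -, h4⟩ := fl_dec ht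
  rw [phiK_eq]
  unfold vt
  rw [add_sub_cancel_left, SR_rv, h4 v hv, add_comm]
  rfl

/-- a bijection of `{0,1,2,3}` given as a function on `ℕ` -/
lemma sum_perm {f : ℕ → ℕ} (hlt : ∀ v < 4, f v < 4) (hinj : ∀ v < 4, ∀ w < 4, f v = f w → v = w)
    {M : Type*} [AddCommMonoid M] (g : ℕ → M) :
    g (f 0) + g (f 1) + g (f 2) + g (f 3) = g 0 + g 1 + g 2 + g 3 := by
  let e : Fin 4 → Fin 4 := fun v => ⟨f v, hlt v v.2⟩
  have hinj : Function.Injective e := by
    intro a b hab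
    exact Fin.ext (hinj a a.2 b b.2 (congrArg Fin.val hab))
  have hbij : Function.Bijective e := Finite.injective_iff_bijective.mp hinj
  have hs := hbij.sum_comp (fun v : Fin 4 => g v)
  simp only [Fin.sum_univ_four] at hs
  exact hs

lemma perm_surj {f : ℕ → ℕ} (hlt : ∀ v < 4, f v < 4) (hinj : ∀ v < 4, ∀ w < 4, f v = f w → v = w)
    {w : ℕ} (hw : w < 4) : ∃ v < 4, f v = w := by
  let e : Fin 4 → Fin 4 := fun v => ⟨f v, hlt v v.2⟩
  have hinj : Function.Injective e := by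
    intro a b hab
    exact Fin.ext (hinj a a.2 b b.2 (congrArg Fin.val hab))
  obtain ⟨v, hv⟩ := (Finite.injective_iff_surjective.mp hinj) ⟨w, hw⟩
  exact ⟨v, v.2, congrArg Fin.val hv⟩

lemma perm_inv {f : ℕ → ℕ} (hinj : ∀ v < 4, ∀ w < 4, f v = f w → v = w) (b : ℕ → ℝ) :
    ∃ g : ℕ → ℝ, ∀ v < 4, g (f v) = b v := by
  classical
  refine ⟨fun w => if w = f 0 then b 0 else if w = f 1 then b 1 else if w = f 2 then b 2
    else b 3, ?_⟩
  intro v hv
  have n01 : f 1 ≠ f 0 := fun h => by have := hinj 1 (by norm_num) 0 (by norm_num) h; omega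
  have n02 : f 2 ≠ f 0 := fun h => by have := hinj 2 (by norm_num) 0 (by norm_num) h; omega
  have n03 : f 3 ≠ f 0 := fun h => by have := hinj 3 (by norm_num) 0 (by norm_num) h; omega
  have n12 : f 2 ≠ f 1 := fun h => by have := hinj 2 (by norm_num) 1 (by norm_num) h; omega
  have n13 : f 3 ≠ f 1 := fun h => by have := hinj 3 (by norm_num) 1 (by norm_num) h; omega
  have n23 : f 3 ≠ f 2 := fun h => by have := hinj 3 (by norm_num) 2 (by norm_num) h; omega
  interval_cases v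
  · simp
  · simp [n01]
  · simp [n02, n12]
  · simp [n03, n13, n23]

/-- the side pairing is affine on the tile -/
lemma phiK_posT {t : Tl} (ht : t.2 < 12) (β : ℕ → ℝ) (h : β 0 + β 1 + β 2 + β 3 = 1)
    {β' : ℕ → ℝ} (hβ : ∀ v < 4, β' (flp t v) = β v) :
    phiK t.1 (posT t β) = posT (flt t) β' := by
  obtain ⟨-, h2, h3, -⟩ := fl_dec ht
  have e : posT (flt t) β' = β 0 • vt (flt t) (flp t 0) + β 1 • vt (flt t) (flp t 1)
      + β 2 • vt (flt t) (flp t 2) + β 3 • vt (flt t) (flp t 3) := by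
    have := sum_perm h2 h3 (fun v => β' v • vt (flt t) v)
    rw [hβ 0 (by norm_num), hβ 1 (by norm_num), hβ 2 (by norm_num), hβ 3 (by norm_num)] at this
    exact this.symm
  rw [e, ← phiK_vt ht (show 0 < 4 by norm_num), ← phiK_vt ht (show 1 < 4 by norm_num),
    ← phiK_vt ht (show 2 < 4 by norm_num), ← phiK_vt ht (show 3 < 4 by norm_num)]
  rw [phiK_eq, posT_sub t β h]
  simp only [phiK_eq, SR_add, SR_smul]
  have hv : ∀ v, vt t v - kz t.1 = rv (Wt (axk t.1) t.2 v) := by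
    intro v; unfold vt; rw [add_sub_cancel_left]
  simp only [hv, smul_add]
  funext i
  simp only [Pi.add_apply, Pi.smul_apply, smul_eq_mul]
  linear_combination (-(kz (tgt t.1) i)) * h

/-- **floor gluing in barycentric coordinates** -/
theorem bb_floor {t : Tl} (ht : t.2 < 12) (z : P3) {v : ℕ} (hv : v < 4) :
    bb (flt t) (flp t v) (phiK t.1 z) = bb t v z := by
  obtain ⟨h1, h2, h3, -⟩ := fl_dec ht
  obtain ⟨g, hg⟩ := perm_inv h3 (fun v => bb t v z)
  have hs := bb_sum t ht z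
  have e := phiK_posT ht (fun v => bb t v z) hs hg
  rw [posT_bb t ht z] at e
  have hsum : g 0 + g 1 + g 2 + g 3 = 1 := by
    rw [← sum_perm h2 h3 g, hg 0 (by norm_num), hg 1 (by norm_num), hg 2 (by norm_num),
      hg 3 (by norm_num)]
    exact hs
  rw [e, bb_posT (flt t) h1 g hsum (h2 v hv), hg v hv]

theorem inT_floor {t : Tl} {z : P3} (h : inT z t) : inT (phiK t.1 z) (flt t) := by
  obtain ⟨h1, h2, h3, -⟩ := fl_dec h.1
  refine ⟨h1, fun w hw => ?_⟩
  obtain ⟨v, hv, rfl⟩ := perm_surj h2 h3 hw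
  rw [bb_floor h.1 z hv]
  exact h.2 v hv

/-- the class depends only on the coset of `Λ'` -/
lemma cls_add {k l : Fin 3 → ℤ} (hl : InLam (l 0) (l 1) (l 2)) : cls (k + l) = cls k := by
  obtain ⟨⟨a, ha⟩, ⟨b, hb⟩⟩ := hl
  unfold cls
  simp only [Pi.add_apply]
  have e1 : (k 0 + l 0) % 2 = k 0 % 2 := by rw [ha]; omega
  rw [e1]
  congr 1
  congr 1
  have e2 : k 2 + l 2 - 11 * (k 1 + l 1) - 6 * (k 0 + l 0 - k 0 % 2)
      = (k 2 - 11 * k 1 - 6 * (k 0 - k 0 % 2)) + 20 * b := by linarith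
  rw [e2]
  omega

/-- translations of the tiles -/
theorem bb_add (k l : Fin 3 → ℤ) (hl : InLam (l 0) (l 1) (l 2)) (j m : ℕ) (z : P3) :
    bb (k + l, j) m (z + kz l) = bb (k, j) m z := by
  unfold bb axk
  simp only [cls_add hl, kz_add, add_sub_add_right_eq_sub]

theorem inT_add {k l : Fin 3 → ℤ} (hl : InLam (l 0) (l 1) (l 2)) {j : ℕ} {z : P3}
    (h : inT z (k, j)) : inT (z + kz l) (k + l, j) :=
  ⟨h.1, fun m hm => by rw [bb_add k l hl]; exact h.2 m hm⟩

end MP55T
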