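import Pool.Agent.Lib_MP_55d5ef_t.TData

/-!
# Farkas certificates and kernel checks for the tiling
-/

namespace MP55T

/-- affine functionals with integral coefficients -/
abbrev A4 := ℤ × ℤ × ℤ × ℤ

/-- value at a point -/
def ev (f : A4) (u : Fin 3 → ℝ) : ℝ := f.1 + f.2.1 * u 0 + f.2.2.1 * u 1 + f.2.2.2 * u 2

lemma ev_add (f g : A4) (u : Fin 3 → ℝ) : ev (f + g) u = ev f u + ev g u := by
  simp only [ev, Prod.fst_add, Prod.snd_add]; push_cast; ring

lemma ev_neg (f : A4) (u : Fin 3 → ℝ) : ev (-f) u = - ev f u := by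
  simp only [ev, Prod.fst_neg, Prod.snd_neg]; push_cast; ring

lemma ev_smul (n : ℤ) (f : A4) (u : Fin 3 → ℝ) : ev (n • f) u = n * ev f u := by
  simp only [ev, Prod.smul_fst, Prod.smul_snd, smul_eq_mul]; push_cast; ring

/-- nonnegative combination -/
def comb : List A4 → List ℕ → A4
  | f :: H, c :: cs => (c : ℤ) • f + comb H cs
  | _, _ => 0

lemma comb_nonneg (u : Fin 3 → ℝ) : ∀ (H : List A4) (cs : List ℕ), (∀ f ∈ H, 0 ≤ ev f u) →
    0 ≤ ev (comb H cs) u
  | f :: H, c :: cs, h => by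
    simp only [comb, ev_add, ev_smul]
    have h1 := h f (by simp)
    have h2 := comb_nonneg u H cs (fun g hg => h g (by simp [hg]))
    have : (0:ℝ) ≤ ((c : ℤ) : ℝ) := by exact_mod_cast Nat.zero_le c
    nlinarith [mul_nonneg this h1]
  | [], _, _ => by simp [comb, ev]
  | _ :: _, [], _ => by simp [comb, ev]

/-- certificate check -/
def ck (H : List A4) (t : A4) (c : ℕ × List ℕ) : Bool :=
  decide (0 < c.1) && decide (comb H c.2 = (c.1 : ℤ) • t)

lemma ck_sound {H : List A4} {t : A4} {c : ℕ × List ℕ} (h : ck H t c = true) {u : Fin 3 → ℝ}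
    (hH : ∀ f ∈ H, 0 ≤ ev f u) : 0 ≤ ev t u := by
  simp only [ck, Bool.and_eq_true, decide_eq_true_eq] at h
  have h1 := comb_nonneg u H c.2 hH
  rw [h.2, ev_smul] at h1
  have h2 : (0:ℝ) < ((c.1 : ℤ) : ℝ) := by exact_mod_cast h.1
  by_contra hneg
  have := mul_neg_of_pos_of_neg h2 (not_le.mp hneg)
  linarith

/-- the vertices, times 10 -/
def Wt (a l m : ℕ) : ℤ × ℤ × ℤ := ((Wl.getD a []).getD l []).getD m (0, 0, 0)

/-- the barycentric functionals, times 6 -/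
def br (a l m : ℕ) : A4 := ((barl.getD a []).getD l []).getD m (0, 0, 0, 0)

/-- neighbour entry -/
def nbt (a l m : ℕ) : (ℤ × ℤ × ℤ) × ℕ × List ℕ :=
  ((nbl.getD a []).getD l []).getD m ((0, 0, 0), 0, [])

/-- Voronoi inequality of the relevant vector `n` -/
def vF (n : ℤ × ℤ × ℤ) : A4 :=
  (n.1 ^ 2 + n.2.1 ^ 2 + 2 * n.2.2 ^ 2 - n.1 * n.2.1 - n.1 * n.2.2,
   -(2 * n.1 - n.2.1 - n.2.2), -(2 * n.2.1 - n.1), -(4 * n.2.2 - n.1))

/-- sign coordinates -/
def xF : ℕ → A4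
  | 0 => (0, 1, 0, 0)
  | 1 => (0, -1, 1, 1)
  | _ => (0, 0, -1, 1)

def vorl : List A4 := rell.map vF

def one4 : A4 := (1, 0, 0, 0)

/-- conjunction over `0,1,2,3` -/
def all4 (f : ℕ → Bool) : Bool := f 0 && f 1 && f 2 && f 3

lemma all4_sound {f : ℕ → Bool} (h : all4 f = true) : ∀ v < 4, f v = true := by
  simp only [all4, Bool.and_eq_true] at h
  intro v hv
  interval_cases v
  · exact h.1.1.1
  · exact h.1.1.2
  · exact h.1.2
  · exact h.2

/-- pairing of a functional with a scaled vertex -/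
def pr4 (f : A4) (w : ℤ × ℤ × ℤ) : ℤ := 10 * f.1 + f.2.1 * w.1 + f.2.2.1 * w.2.1 + f.2.2.2 * w.2.2

lemma chk_bar : ∀ a < 3, ∀ l < 12, ∀ m < 4, ∀ v < 4,
    pr4 (br a l m) (Wt a l v) = if m = v then 60 else 0 := by decide +kernel

lemma chk_one : ∀ a < 3, ∀ l < 12,
    br a l 0 + br a l 1 + br a l 2 + br a l 3 = (6, 0, 0, 0) := by decide +kernel

lemma chk_pos1 : ∀ a < 3, ∀ l < 12,
    (Wt a l 0).1 • br a l 0 + (Wt a l 1).1 • br a l 1 + (Wt a l 2).1 • br a l 2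
      + (Wt a l 3).1 • br a l 3 = (0, 60, 0, 0) := by decide +kernel

lemma chk_pos2 : ∀ a < 3, ∀ l < 12,
    (Wt a l 0).2.1 • br a l 0 + (Wt a l 1).2.1 • br a l 1 + (Wt a l 2).2.1 • br a l 2
      + (Wt a l 3).2.1 • br a l 3 = (0, 0, 60, 0) := by decide +kernel

lemma chk_pos3 : ∀ a < 3, ∀ l < 12,
    (Wt a l 0).2.2 • br a l 0 + (Wt a l 1).2.2 • br a l 1 + (Wt a l 2).2.2 • br a l 2
      + (Wt a l 3).2.2 • br a l 3 = (0, 0, 0, 60) := by decide +kernel

/-- permutation entry -/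
def pm (p : List ℕ) (v : ℕ) : ℕ := p.getD v 0

/-- the neighbour is in range -/
lemma chk_nb1 : ∀ a < 3, ∀ l < 12, ∀ m < 4, (nbt a l m).2.1 < 12 := by decide +kernel

/-- the permutation is in range -/
lemma chk_nb2 : ∀ a < 3, ∀ l < 12, ∀ m < 4, ∀ v < 4, pm (nbt a l m).2.2 v < 4 := by
  decide +kernel

/-- the permutation is injective -/
def injB (p : List ℕ) : Bool :=
  all4 fun v => all4 fun w => !(decide (pm p v = pm p w)) || decide (v = w)

lemma chk_nb3 : ∀ a < 3, ∀ l < 12, ∀ m < 4, injB (nbt a l m).2.2 = true := by decide +kernel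

/-- the translate of a scaled point by a lattice vector -/
def tr10 (d w : ℤ × ℤ × ℤ) : ℤ × ℤ × ℤ := (10 * d.1 + w.1, 10 * d.2.1 + w.2.1, 10 * d.2.2 + w.2.2)

/-- vertices match for the axis `a'` of the neighbouring cell -/
def mtB (a l m a' : ℕ) : Bool :=
  all4 fun v => decide (v = m) ||
    decide (Wt a l v = tr10 (nbt a l m).1 (Wt a' (nbt a l m).2.1 (pm (nbt a l m).2.2 v)))

lemma chk_nb4 : ∀ a < 3, ∀ l < 12, ∀ m < 4, mtB a l m a = true := by decide +kernel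

lemma chk_nb5 : ∀ a < 3, ∀ l < 12, ∀ m < 4, ∀ a' < 3,
    (decide ((nbt a l m).1 = (0, 0, 0)) || mtB a l m a') = true := by decide +kernel

/-- the four functionals of a tetrahedron -/
def bl (a l : ℕ) : List A4 := [br a l 0, br a l 1, br a l 2, br a l 3]

/-- every tetrahedron satisfies the Voronoi inequalities -/
lemma chk_iv : ∀ a < 3, ∀ l < 12, ∀ i < 12,
    ck (bl a l ++ [one4]) (vorl.getD i 0) ((((ivl.getD a []).getD l []).getD i (0, []))) = true := by
  decide +kernel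

/-- sign `1` for `0`, `-1` otherwise -/
def sg (b : ℕ) : ℤ := if b = 0 then 1 else -1

/-- the functional `∑ sᵢ xᵢ - 1`, with sign of the side -/
def sF (b0 b1 b2 side : ℕ) : A4 :=
  sg side • (sg b0 • xF 0 + sg b1 • xF 1 + sg b2 • xF 2 - one4)

/-- hypotheses of the cover check -/
def Hc (b0 b1 b2 side : ℕ) : List A4 :=
  vorl ++ [sg b0 • xF 0, sg b1 • xF 1, sg b2 • xF 2] ++ [sF b0 b1 b2 side, one4]

def cve (a b0 b1 b2 side : ℕ) : ℕ × List (ℕ × List ℕ) :=
  (covl.getD a []).getD (2 * (4 * b0 + 2 * b1 + b2) + side) (0, [])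

def cvB (a b0 b1 b2 side : ℕ) : Bool :=
  decide ((cve a b0 b1 b2 side).1 < 12) && all4 fun m =>
      ck (Hc b0 b1 b2 side) (br a (cve a b0 b1 b2 side).1 m)
        ((cve a b0 b1 b2 side).2.getD m (0, []))

lemma chk_cov : ∀ a < 3, ∀ b0 < 2, ∀ b1 < 2, ∀ b2 < 2, ∀ side < 2,
    cvB a b0 b1 b2 side = true := by decide +kernel

/-- cross entry -/
def cre (i : ℕ) : ℕ × (ℕ × ℕ × List (ℕ × List ℕ)) × (ℕ × ℕ × List (ℕ × List ℕ)) :=
  crl.getD i (0, (0, 0, []), (0, 0, []))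

def crs (i b : ℕ) : ℕ × ℕ × List (ℕ × List ℕ) := if b = 0 then (cre i).2.1 else (cre i).2.2

/-- hypotheses of the cross check -/
def Hx (i b : ℕ) : List A4 :=
  vorl ++ [-(vorl.getD i 0), sg b • xF (cre i).1, one4]

def crB (a i b : ℕ) : Bool :=
  decide ((crs i b).1 < 12) && decide ((crs i b).2.1 < 4) &&
    decide ((nbt a (crs i b).1 (crs i b).2.1).1 = rell.getD i (0, 0, 0)) &&
    (all4 fun m => ck (Hx i b) (br a (crs i b).1 m) ((crs i b).2.2.getD m (0, []))) &&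
    ck (Hx i b) (-(br a (crs i b).1 (crs i b).2.1)) ((crs i b).2.2.getD 4 (0, []))

lemma chk_cr : ∀ a < 3, ∀ i < 12, ∀ b < 2, crB a i b = true := by decide +kernel

/-- the in-cell path check -/
def ckp (a : ℕ) (H : List A4) (fin : ℕ) : ℕ → List (ℕ × ℕ × List ℕ) → Bool
  | cur, [] => decide (cur = fin)
  | cur, (m, c) :: r =>
    decide (m < 4) && decide ((nbt a cur m).1 = (0, 0, 0)) && ck H (-(br a cur m)) c
      && ckp a H fin (nbt a cur m).2.1 r

def inle (a l l' : ℕ) : List (ℕ × ℕ × List ℕ) :=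
  (if a = 0 then incl0 else if a = 1 then incl1 else incl2).getD (12 * l + l') []

lemma chk_in : ∀ a < 3, ∀ l < 12, ∀ l' < 12,
    ckp a (bl a l ++ bl a l' ++ [one4]) l' l (inle a l l') = true := by decide +kernel

end MP55T
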