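import Mathlib

/-!
# Tiling data (generated)

`Wl`: the 12 straight tetrahedra of a cell for each of the three axes (coordinates times 10, order
of helper96's `C480`), `barl`: barycentric functionals times 6, `nbl`: neighbours across facets,
`covl`, `crl`, `incl`, `ivl`: Farkas certificates, `axl`: axis of each class, `fll`: floor gluings.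
-/

namespace MP55T

def axl : List ℕ :=
  [0,0,0,0,0,0,0,0,0,0,0,1,0,0,2,0,2,0,0,1,1,2,1,0,0,0,1,0,0,0,0,1,1,2,2,0,0,1,0,1]

def Wl : List (List (List (ℤ × ℤ × ℤ))) :=
  [[[(-10,-5,-5),(10,5,5),(0,-5,-5),(0,5,-5)],[(-10,-5,-5),(10,5,5),(0,5,-5),(0,5,5)],[(-10,-5,-5),(10,5,5),(0,5,5),(0,-5,5)],[(-10,-5,-5),(10,5,5),(0,-5,5),(0,-5,-5)],[(4,2,-4),(0,-5,-5),(0,5,-5),(10,5,5)],[(-4,-2,-6),(0,-5,-5),(0,5,-5),(-10,-5,-5)],[(-4,-2,4),(0,-5,5),(0,5,5),(-10,-5,-5)],[(4,2,6),(0,-5,5),(0,5,5),(10,5,5)],[(6,-2,4),(0,-5,-5),(0,-5,5),(10,5,5)],[(-6,-8,-4),(0,-5,-5),(0,-5,5),(-10,-5,-5)],[(-6,2,-4),(0,5,-5),(0,5,5),(-10,-5,-5)],[(6,8,4),(0,5,-5),(0,5,5),(10,5,5)]]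
   ,[[(0,-5,-5),(0,5,5),(0,5,-5),(-10,-5,-5)],[(0,-5,-5),(0,5,5),(-10,-5,-5),(0,-5,5)],[(0,-5,-5),(0,5,5),(0,-5,5),(10,5,5)],[(0,-5,-5),(0,5,5),(10,5,5),(0,5,-5)],[(4,2,-4),(0,-5,-5),(0,5,-5),(10,5,5)],[(-4,-2,-6),(0,-5,-5),(0,5,-5),(-10,-5,-5)],[(-4,-2,4),(0,-5,5),(0,5,5),(-10,-5,-5)],[(4,2,6),(0,-5,5),(0,5,5),(10,5,5)],[(6,-2,4),(0,-5,-5),(0,-5,5),(10,5,5)],[(-6,-8,-4),(0,-5,-5),(0,-5,5),(-10,-5,-5)],[(-6,2,-4),(0,5,-5),(0,5,5),(-10,-5,-5)],[(6,8,4),(0,5,-5),(0,5,5),(10,5,5)]]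
   ,[[(0,-5,5),(0,5,-5),(0,-5,-5),(-10,-5,-5)],[(0,-5,5),(0,5,-5),(-10,-5,-5),(0,5,5)],[(0,-5,5),(0,5,-5),(0,5,5),(10,5,5)],[(0,-5,5),(0,5,-5),(10,5,5),(0,-5,-5)],[(4,2,-4),(0,-5,-5),(0,5,-5),(10,5,5)],[(-4,-2,-6),(0,-5,-5),(0,5,-5),(-10,-5,-5)],[(-4,-2,4),(0,-5,5),(0,5,5),(-10,-5,-5)],[(4,2,6),(0,-5,5),(0,5,5),(10,5,5)],[(6,-2,4),(0,-5,-5),(0,-5,5),(10,5,5)],[(-6,-8,-4),(0,-5,-5),(0,-5,5),(-10,-5,-5)],[(-6,2,-4),(0,5,-5),(0,5,5),(-10,-5,-5)],[(6,8,4),(0,5,-5),(0,5,5),(10,5,5)]]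
   ]

def barl : List (List (List (ℤ × ℤ × ℤ × ℤ))) :=
  [[[(3,-6,0,6),(3,0,0,6),(0,6,-6,-6),(0,0,6,-6)],[(3,0,-6,0),(3,6,-6,0),(0,0,6,-6),(0,-6,6,6)],[(3,0,0,-6),(3,6,0,-6),(0,-6,6,6),(0,0,-6,6)],[(3,-6,6,0),(3,0,6,0),(0,0,-6,6),(0,6,-6,-6)],[(-10,20,0,-20),(6,-6,-6,6),(6,-12,6,6),(4,-2,0,8)],[(-30,0,0,-60),(12,6,-6,18),(12,0,6,18),(12,-6,0,24)],[(-10,-20,0,20),(6,12,-6,-6),(6,6,6,-6),(4,2,0,-8)],[(-30,0,0,60),(12,0,-6,-18),(12,-6,6,-18),(12,6,0,-24)],[(-10,20,-20,0),(4,-2,2,-6),(6,-12,6,6),(6,-6,12,0)],[(-10,0,-20,0),(6,6,6,-6),(4,0,2,6),(6,-6,12,0)],[(-10,-20,20,0),(6,12,-6,-6),(4,2,-2,6),(6,6,-12,0)],[(-10,0,20,0),(4,0,-2,-6),(6,-6,-6,6),(6,6,-12,0)]]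
   ,[[(3,6,-6,0),(3,0,0,6),(0,0,6,-6),(0,-6,0,0)],[(3,6,0,-6),(3,0,6,0),(0,-6,0,0),(0,0,-6,6)],[(3,0,0,-6),(3,-6,6,0),(0,0,-6,6),(0,6,0,0)],[(3,0,-6,0),(3,-6,0,6),(0,6,0,0),(0,0,6,-6)],[(-10,20,0,-20),(6,-6,-6,6),(6,-12,6,6),(4,-2,0,8)],[(-30,0,0,-60),(12,6,-6,18),(12,0,6,18),(12,-6,0,24)],[(-10,-20,0,20),(6,12,-6,-6),(6,6,6,-6),(4,2,0,-8)],[(-30,0,0,60),(12,0,-6,-18),(12,-6,6,-18),(12,6,0,-24)],[(-10,20,-20,0),(4,-2,2,-6),(6,-12,6,6),(6,-6,12,0)],[(-10,0,-20,0),(6,6,6,-6),(4,0,2,6),(6,-6,12,0)],[(-10,-20,20,0),(6,12,-6,-6),(4,2,-2,6),(6,6,-12,0)],[(-10,0,20,0),(4,0,-2,-6),(6,-6,-6,6),(6,6,-12,0)]]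
   ,[[(3,0,0,6),(3,0,6,0),(0,6,-6,-6),(0,-6,0,0)],[(3,6,-6,0),(3,6,0,-6),(0,-6,0,0),(0,-6,6,6)],[(3,0,-6,0),(3,0,0,-6),(0,-6,6,6),(0,6,0,0)],[(3,-6,0,6),(3,-6,6,0),(0,6,0,0),(0,6,-6,-6)],[(-10,20,0,-20),(6,-6,-6,6),(6,-12,6,6),(4,-2,0,8)],[(-30,0,0,-60),(12,6,-6,18),(12,0,6,18),(12,-6,0,24)],[(-10,-20,0,20),(6,12,-6,-6),(6,6,6,-6),(4,2,0,-8)],[(-30,0,0,60),(12,0,-6,-18),(12,-6,6,-18),(12,6,0,-24)],[(-10,20,-20,0),(4,-2,2,-6),(6,-12,6,6),(6,-6,12,0)],[(-10,0,-20,0),(6,6,6,-6),(4,0,2,6),(6,-6,12,0)],[(-10,-20,20,0),(6,12,-6,-6),(4,2,-2,6),(6,6,-12,0)],[(-10,0,20,0),(4,0,-2,-6),(6,-6,-6,6),(6,6,-12,0)]]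
   ]

def nbl : List (List (List ((ℤ × ℤ × ℤ) × ℕ × List ℕ))) :=
  [[[((0,0,0),4,[0,3,1,2]),((0,0,0),5,[3,0,1,2]),((0,0,0),1,[0,1,3,2]),((0,0,0),3,[0,1,3,2])],[((0,0,0),11,[0,3,1,2]),((0,0,0),10,[3,0,1,2]),((0,0,0),2,[0,1,3,2]),((0,0,0),0,[0,1,3,2])],[((0,0,0),7,[0,3,2,1]),((0,0,0),6,[3,0,2,1]),((0,0,0),3,[0,1,3,2]),((0,0,0),1,[0,1,3,2])],[((0,0,0),8,[0,3,2,1]),((0,0,0),9,[3,0,2,1]),((0,0,0),0,[0,1,3,2]),((0,0,0),2,[0,1,3,2])],[((0,0,0),0,[0,2,3,1]),((1,1,0),9,[0,1,3,2]),((1,0,0),10,[0,3,1,2]),((0,0,-1),7,[0,1,2,3])],[((0,0,0),0,[1,2,3,0]),((-1,0,-1),8,[0,1,3,2]),((-1,-1,-1),11,[0,3,1,2]),((0,0,-1),6,[0,1,2,3])],[((0,0,0),2,[1,3,2,0]),((-1,0,0),8,[0,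2,3,1]),((-1,-1,0),11,[0,3,2,1]),((0,0,1),5,[0,1,2,3])],[((0,0,0),2,[0,3,2,1]),((1,1,1),9,[0,2,3,1]),((1,0,1),10,[0,3,2,1]),((0,0,1),4,[0,1,2,3])],[((0,0,0),3,[0,3,2,1]),((1,0,1),5,[0,1,3,2]),((1,0,0),6,[0,3,1,2]),((0,-1,0),11,[0,1,2,3])],[((0,0,0),3,[1,3,2,0]),((-1,-1,0),4,[0,1,3,2]),((-1,-1,-1),7,[0,3,1,2]),((0,-1,0),10,[0,1,2,3])],[((0,0,0),1,[1,2,3,0]),((-1,0,0),4,[0,2,3,1]),((-1,0,-1),7,[0,3,2,1]),((0,1,0),9,[0,1,2,3])],[((0,0,0),1,[0,2,3,1]),((1,1,1),5,[0,2,3,1]),((1,1,0),6,[0,3,2,1]),((0,1,0),8,[0,1,2,3])]]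
   ,[[((0,0,0),10,[0,2,1,3]),((0,0,0),5,[1,0,2,3]),((0,0,0),1,[0,1,3,2]),((0,0,0),3,[0,1,3,2])],[((0,0,0),6,[0,2,3,1]),((0,0,0),9,[1,0,3,2]),((0,0,0),2,[0,1,3,2]),((0,0,0),0,[0,1,3,2])],[((0,0,0),7,[0,2,1,3]),((0,0,0),8,[1,0,2,3]),((0,0,0),3,[0,1,3,2]),((0,0,0),1,[0,1,3,2])],[((0,0,0),11,[0,2,3,1]),((0,0,0),4,[1,0,3,2]),((0,0,0),0,[0,1,3,2]),((0,0,0),2,[0,1,3,2])],[((0,0,0),3,[1,0,3,2]),((1,1,0),9,[0,1,3,2]),((1,0,0),10,[0,3,1,2]),((0,0,-1),7,[0,1,2,3])],[((0,0,0),0,[1,0,2,3]),((-1,0,-1),8,[0,1,3,2]),((-1,-1,-1),11,[0,3,1,2]),((0,0,-1),6,[0,1,2,3])],[((0,0,0),1,[0,3,1,2]),((-1,0,0),8,[0,2,3,1]),((-1,-1,0),11,[0,3,2,1]),((0,0,1),5,[0,1,2,3])],[((0,0,0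),2,[0,2,1,3]),((1,1,1),9,[0,2,3,1]),((1,0,1),10,[0,3,2,1]),((0,0,1),4,[0,1,2,3])],[((0,0,0),2,[1,0,2,3]),((1,0,1),5,[0,1,3,2]),((1,0,0),6,[0,3,1,2]),((0,-1,0),11,[0,1,2,3])],[((0,0,0),1,[1,0,3,2]),((-1,-1,0),4,[0,1,3,2]),((-1,-1,-1),7,[0,3,1,2]),((0,-1,0),10,[0,1,2,3])],[((0,0,0),0,[0,2,1,3]),((-1,0,0),4,[0,2,3,1]),((-1,0,-1),7,[0,3,2,1]),((0,1,0),9,[0,1,2,3])],[((0,0,0),3,[0,3,1,2]),((1,1,1),5,[0,2,3,1]),((1,1,0),6,[0,3,2,1]),((0,1,0),8,[0,1,2,3])]]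
   ,[[((0,0,0),5,[0,2,1,3]),((0,0,0),9,[2,0,1,3]),((0,0,0),1,[0,1,3,2]),((0,0,0),3,[0,1,3,2])],[((0,0,0),10,[0,1,3,2]),((0,0,0),6,[1,0,3,2]),((0,0,0),2,[0,1,3,2]),((0,0,0),0,[0,1,3,2])],[((0,0,0),11,[0,1,2,3]),((0,0,0),7,[1,0,2,3]),((0,0,0),3,[0,1,3,2]),((0,0,0),1,[0,1,3,2])],[((0,0,0),4,[0,2,3,1]),((0,0,0),8,[2,0,3,1]),((0,0,0),0,[0,1,3,2]),((0,0,0),2,[0,1,3,2])],[((0,0,0),3,[0,3,1,2]),((1,1,0),9,[0,1,3,2]),((1,0,0),10,[0,3,1,2]),((0,0,-1),7,[0,1,2,3])],[((0,0,0),0,[0,2,1,3]),((-1,0,-1),8,[0,1,3,2]),((-1,-1,-1),11,[0,3,1,2]),((0,0,-1),6,[0,1,2,3])],[((0,0,0),1,[1,0,3,2]),((-1,0,0),8,[0,2,3,1]),((-1,-1,0),11,[0,3,2,1]),((0,0,1),5,[0,1,2,3])],[((0,0,0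),2,[1,0,2,3]),((1,1,1),9,[0,2,3,1]),((1,0,1),10,[0,3,2,1]),((0,0,1),4,[0,1,2,3])],[((0,0,0),3,[1,3,0,2]),((1,0,1),5,[0,1,3,2]),((1,0,0),6,[0,3,1,2]),((0,-1,0),11,[0,1,2,3])],[((0,0,0),0,[1,2,0,3]),((-1,-1,0),4,[0,1,3,2]),((-1,-1,-1),7,[0,3,1,2]),((0,-1,0),10,[0,1,2,3])],[((0,0,0),1,[0,1,3,2]),((-1,0,0),4,[0,2,3,1]),((-1,0,-1),7,[0,3,2,1]),((0,1,0),9,[0,1,2,3])],[((0,0,0),2,[0,1,2,3]),((1,1,1),5,[0,2,3,1]),((1,1,0),6,[0,3,2,1]),((0,1,0),8,[0,1,2,3])]]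
   ]

def rell : List (ℤ × ℤ × ℤ) :=
  [(1,0,0),(-1,0,0),(0,1,0),(0,-1,0),(1,1,0),(-1,-1,0),(0,0,1),(0,0,-1),(1,0,1),(-1,0,-1),(1,1,1),(-1,-1,-1)]

def covl : List (List (ℕ × List (ℕ × List ℕ))) :=
  [[(7,[(1,[0,0,0,0,0,0,0,0,0,0,0,0,0,0,0,30,0]),(1,[0,0,0,0,0,0,0,0,0,0,6,0,0,0,0,0,0]),(1,[0,0,0,0,0,0,0,0,6,0,0,0,0,0,0,0,0]),(1,[0,0,0,0,0,0,6,0,0,0,0,0,0,0,0,0,0])]),(2,[(1,[0,0,0,0,0,0,0,0,0,0,0,0,0,0,0,3,0]),(2,[0,0,0,0,0,0,3,0,0,0,0,0,9,0,0,0,0]),(1,[0,0,0,0,0,0,0,0,0,0,0,0,0,6,0,0,0]),(1,[0,0,0,0,0,0,0,0,0,0,0,0,0,0,6,0,0])]),(11,[(1,[0,0,0,0,0,0,0,0,0,0,0,0,0,0,0,10,0]),(1,[0,0,0,0,0,0,0,0,0,0,2,0,0,0,0,0,0]),(1,[0,0,0,0,6,0,0,0,0,0,0,0,0,0,0,0,0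]),(1,[0,0,6,0,0,0,0,0,0,0,0,0,0,0,0,0,0])]),(1,[(1,[0,0,0,0,0,0,0,0,0,0,0,0,0,0,0,3,0]),(1,[0,0,3,0,0,0,0,0,0,0,0,0,3,0,0,0,0]),(1,[0,0,0,0,0,0,0,0,0,0,0,0,0,0,6,0,0]),(1,[0,0,0,0,0,0,0,0,0,0,0,0,0,6,0,0,0])]),(8,[(1,[0,0,0,0,0,0,0,0,0,0,0,0,0,0,0,10,0]),(1,[0,0,0,0,0,0,0,0,2,0,0,0,0,0,0,0,0]),(1,[6,0,0,0,0,0,0,0,0,0,0,0,0,0,0,0,0]),(1,[0,0,0,6,0,0,0,0,0,0,0,0,0,0,0,0,0])]),(3,[(1,[0,0,0,0,0,0,0,0,0,0,0,0,0,0,0,3,0]),(1,[0,0,0,3,0,0,0,0,0,0,0,0,3,0,0,0,0]),(1,[0,0,0,0,0,0,0,0,0,0,0,0,0,0,6,0,0]),(1,[0,0,0,0,0,0,0,0,0,0,0,0,0,6,0,0,0])]),(4,[(1,[0,0,0,0,0,0,0,0,0,0,0,0,0,0,0,10,0]),(1,[0,0,0,0,6,0,0,0,0,0,0,0,0,0,0,0,0]),(1,[6,0,0,0,0,0,0,0,0,0,0,0,0,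0,0,0,0]),(1,[0,0,0,0,0,0,0,2,0,0,0,0,0,0,0,0,0])]),(0,[(1,[0,0,0,0,0,0,0,0,0,0,0,0,0,0,0,3,0]),(2,[0,0,0,0,0,0,0,3,0,0,0,0,3,0,0,0,0]),(1,[0,0,0,0,0,0,0,0,0,0,0,0,0,6,0,0,0]),(1,[0,0,0,0,0,0,0,0,0,0,0,0,0,0,6,0,0])]),(6,[(1,[0,0,0,0,0,0,0,0,0,0,0,0,0,0,0,10,0]),(1,[0,6,0,0,0,0,0,0,0,0,0,0,0,0,0,0,0]),(1,[0,0,0,0,0,6,0,0,0,0,0,0,0,0,0,0,0]),(1,[0,0,0,0,0,0,2,0,0,0,0,0,0,0,0,0,0])]),(2,[(2,[0,0,0,0,0,0,3,0,0,0,0,0,3,0,0,0,0]),(1,[0,0,0,0,0,0,0,0,0,0,0,0,0,0,0,3,0]),(1,[0,0,0,0,0,0,0,0,0,0,0,0,0,6,0,0,0]),(1,[0,0,0,0,0,0,0,0,0,0,0,0,0,0,6,0,0])]),(10,[(1,[0,0,0,0,0,0,0,0,0,0,0,0,0,0,0,10,0]),(1,[0,6,0,0,0,0,0,0,0,0,0,0,0,0,0,0,0]),(1,[0,0,0,0,0,0,0,0,0,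2,0,0,0,0,0,0,0]),(1,[0,0,6,0,0,0,0,0,0,0,0,0,0,0,0,0,0])]),(1,[(1,[0,0,3,0,0,0,0,0,0,0,0,0,3,0,0,0,0]),(1,[0,0,0,0,0,0,0,0,0,0,0,0,0,0,0,3,0]),(1,[0,0,0,0,0,0,0,0,0,0,0,0,0,0,6,0,0]),(1,[0,0,0,0,0,0,0,0,0,0,0,0,0,6,0,0,0])]),(9,[(1,[0,0,0,0,0,0,0,0,0,0,0,0,0,0,0,10,0]),(1,[0,0,0,0,0,6,0,0,0,0,0,0,0,0,0,0,0]),(1,[0,0,0,0,0,0,0,0,0,0,0,2,0,0,0,0,0]),(1,[0,0,0,6,0,0,0,0,0,0,0,0,0,0,0,0,0])]),(3,[(1,[0,0,0,3,0,0,0,0,0,0,0,0,3,0,0,0,0]),(1,[0,0,0,0,0,0,0,0,0,0,0,0,0,0,0,3,0]),(1,[0,0,0,0,0,0,0,0,0,0,0,0,0,0,6,0,0]),(1,[0,0,0,0,0,0,0,0,0,0,0,0,0,6,0,0,0])]),(5,[(1,[0,0,0,0,0,0,0,0,0,0,0,0,0,0,0,30,0]),(1,[0,0,0,0,0,0,0,0,0,6,0,0,0,0,0,0,0]),(1,[0,0,0,0,0,0,0,0,0,0,0,6,0,0,0,0,0]),(1,[0,0,0,0,0,0,0,6,0,0,0,0,0,0,0,0,0])]),(0,[(2,[0,0,0,0,0,0,0,3,0,0,0,0,9,0,0,0,0]),(1,[0,0,0,0,0,0,0,0,0,0,0,0,0,0,0,3,0]),(1,[0,0,0,0,0,0,0,0,0,0,0,0,0,6,0,0,0]),(1,[0,0,0,0,0,0,0,0,0,0,0,0,0,0,6,0,0])])]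
   ,[(7,[(1,[0,0,0,0,0,0,0,0,0,0,0,0,0,0,0,30,0]),(1,[0,0,0,0,0,0,0,0,0,0,6,0,0,0,0,0,0]),(1,[0,0,0,0,0,0,0,0,6,0,0,0,0,0,0,0,0]),(1,[0,0,0,0,0,0,6,0,0,0,0,0,0,0,0,0,0])]),(2,[(1,[0,0,0,0,0,0,0,0,0,0,0,0,0,0,0,3,0]),(2,[0,0,0,0,0,0,0,0,3,0,0,0,0,9,0,0,0]),(1,[0,0,0,0,0,0,0,0,0,0,0,0,0,0,6,0,0]),(1,[0,0,0,0,0,0,0,0,0,0,0,0,6,0,0,0,0])]),(11,[(1,[0,0,0,0,0,0,0,0,0,0,0,0,0,0,0,10,0]),(1,[0,0,0,0,0,0,0,0,0,0,2,0,0,0,0,0,0]),(1,[0,0,0,0,6,0,0,0,0,0,0,0,0,0,0,0,0]),(1,[0,0,6,0,0,0,0,0,0,0,0,0,0,0,0,0,0])]),(3,[(1,[0,0,0,0,0,0,0,0,0,0,0,0,0,0,0,3,0]),(1,[0,0,0,0,3,0,0,0,0,0,0,0,0,3,0,0,0]),(1,[0,0,0,0,0,0,0,0,0,0,0,0,6,0,0,0,0]),(1,[0,0,0,0,0,0,0,0,0,0,0,0,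0,0,6,0,0])]),(8,[(1,[0,0,0,0,0,0,0,0,0,0,0,0,0,0,0,10,0]),(1,[0,0,0,0,0,0,0,0,2,0,0,0,0,0,0,0,0]),(1,[6,0,0,0,0,0,0,0,0,0,0,0,0,0,0,0,0]),(1,[0,0,0,6,0,0,0,0,0,0,0,0,0,0,0,0,0])]),(2,[(2,[0,0,0,0,0,0,0,0,3,0,0,0,0,3,0,0,0]),(1,[0,0,0,0,0,0,0,0,0,0,0,0,0,0,0,3,0]),(1,[0,0,0,0,0,0,0,0,0,0,0,0,0,0,6,0,0]),(1,[0,0,0,0,0,0,0,0,0,0,0,0,6,0,0,0,0])]),(4,[(1,[0,0,0,0,0,0,0,0,0,0,0,0,0,0,0,10,0]),(1,[0,0,0,0,6,0,0,0,0,0,0,0,0,0,0,0,0]),(1,[6,0,0,0,0,0,0,0,0,0,0,0,0,0,0,0,0]),(1,[0,0,0,0,0,0,0,2,0,0,0,0,0,0,0,0,0])]),(3,[(1,[0,0,0,0,3,0,0,0,0,0,0,0,0,3,0,0,0]),(1,[0,0,0,0,0,0,0,0,0,0,0,0,0,0,0,3,0]),(1,[0,0,0,0,0,0,0,0,0,0,0,0,6,0,0,0,0]),(1,[0,0,0,0,0,0,0,0,0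,0,0,0,0,0,6,0,0])]),(6,[(1,[0,0,0,0,0,0,0,0,0,0,0,0,0,0,0,10,0]),(1,[0,6,0,0,0,0,0,0,0,0,0,0,0,0,0,0,0]),(1,[0,0,0,0,0,6,0,0,0,0,0,0,0,0,0,0,0]),(1,[0,0,0,0,0,0,2,0,0,0,0,0,0,0,0,0,0])]),(1,[(1,[0,0,0,0,0,0,0,0,0,0,0,0,0,0,0,3,0]),(1,[0,0,0,0,0,3,0,0,0,0,0,0,0,3,0,0,0]),(1,[0,0,0,0,0,0,0,0,0,0,0,0,6,0,0,0,0]),(1,[0,0,0,0,0,0,0,0,0,0,0,0,0,0,6,0,0])]),(10,[(1,[0,0,0,0,0,0,0,0,0,0,0,0,0,0,0,10,0]),(1,[0,6,0,0,0,0,0,0,0,0,0,0,0,0,0,0,0]),(1,[0,0,0,0,0,0,0,0,0,2,0,0,0,0,0,0,0]),(1,[0,0,6,0,0,0,0,0,0,0,0,0,0,0,0,0,0])]),(0,[(1,[0,0,0,0,0,0,0,0,0,0,0,0,0,0,0,3,0]),(2,[0,0,0,0,0,0,0,0,0,3,0,0,0,3,0,0,0]),(1,[0,0,0,0,0,0,0,0,0,0,0,0,0,0,6,0,0]),(1,[0,0,0,0,0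,0,0,0,0,0,0,0,6,0,0,0,0])]),(9,[(1,[0,0,0,0,0,0,0,0,0,0,0,0,0,0,0,10,0]),(1,[0,0,0,0,0,6,0,0,0,0,0,0,0,0,0,0,0]),(1,[0,0,0,0,0,0,0,0,0,0,0,2,0,0,0,0,0]),(1,[0,0,0,6,0,0,0,0,0,0,0,0,0,0,0,0,0])]),(1,[(1,[0,0,0,0,0,3,0,0,0,0,0,0,0,3,0,0,0]),(1,[0,0,0,0,0,0,0,0,0,0,0,0,0,0,0,3,0]),(1,[0,0,0,0,0,0,0,0,0,0,0,0,6,0,0,0,0]),(1,[0,0,0,0,0,0,0,0,0,0,0,0,0,0,6,0,0])]),(5,[(1,[0,0,0,0,0,0,0,0,0,0,0,0,0,0,0,30,0]),(1,[0,0,0,0,0,0,0,0,0,6,0,0,0,0,0,0,0]),(1,[0,0,0,0,0,0,0,0,0,0,0,6,0,0,0,0,0]),(1,[0,0,0,0,0,0,0,6,0,0,0,0,0,0,0,0,0])]),(0,[(2,[0,0,0,0,0,0,0,0,0,3,0,0,0,9,0,0,0]),(1,[0,0,0,0,0,0,0,0,0,0,0,0,0,0,0,3,0]),(1,[0,0,0,0,0,0,0,0,0,0,0,0,0,0,6,0,0]),(1,[0,0,0,0,0,0,0,0,0,0,0,0,6,0,0,0,0])])]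
   ,[(7,[(1,[0,0,0,0,0,0,0,0,0,0,0,0,0,0,0,30,0]),(1,[0,0,0,0,0,0,0,0,0,0,6,0,0,0,0,0,0]),(1,[0,0,0,0,0,0,0,0,6,0,0,0,0,0,0,0,0]),(1,[0,0,0,0,0,0,6,0,0,0,0,0,0,0,0,0,0])]),(2,[(2,[0,0,0,0,0,0,0,0,0,0,3,0,0,0,9,0,0]),(1,[0,0,0,0,0,0,0,0,0,0,0,0,0,0,0,3,0]),(1,[0,0,0,0,0,0,0,0,0,0,0,0,0,6,0,0,0]),(1,[0,0,0,0,0,0,0,0,0,0,0,0,6,0,0,0,0])]),(11,[(1,[0,0,0,0,0,0,0,0,0,0,0,0,0,0,0,10,0]),(1,[0,0,0,0,0,0,0,0,0,0,2,0,0,0,0,0,0]),(1,[0,0,0,0,6,0,0,0,0,0,0,0,0,0,0,0,0]),(1,[0,0,6,0,0,0,0,0,0,0,0,0,0,0,0,0,0])]),(2,[(1,[0,0,0,0,0,0,0,0,0,0,0,0,0,0,0,3,0]),(2,[0,0,0,0,0,0,0,0,0,0,3,0,0,0,3,0,0]),(1,[0,0,0,0,0,0,0,0,0,0,0,0,0,6,0,0,0]),(1,[0,0,0,0,0,0,0,0,0,0,0,0,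6,0,0,0,0])]),(8,[(1,[0,0,0,0,0,0,0,0,0,0,0,0,0,0,0,10,0]),(1,[0,0,0,0,0,0,0,0,2,0,0,0,0,0,0,0,0]),(1,[6,0,0,0,0,0,0,0,0,0,0,0,0,0,0,0,0]),(1,[0,0,0,6,0,0,0,0,0,0,0,0,0,0,0,0,0])]),(3,[(1,[3,0,0,0,0,0,0,0,0,0,0,0,0,0,3,0,0]),(1,[0,0,0,0,0,0,0,0,0,0,0,0,0,0,0,3,0]),(1,[0,0,0,0,0,0,0,0,0,0,0,0,6,0,0,0,0]),(1,[0,0,0,0,0,0,0,0,0,0,0,0,0,6,0,0,0])]),(4,[(1,[0,0,0,0,0,0,0,0,0,0,0,0,0,0,0,10,0]),(1,[0,0,0,0,6,0,0,0,0,0,0,0,0,0,0,0,0]),(1,[6,0,0,0,0,0,0,0,0,0,0,0,0,0,0,0,0]),(1,[0,0,0,0,0,0,0,2,0,0,0,0,0,0,0,0,0])]),(3,[(1,[0,0,0,0,0,0,0,0,0,0,0,0,0,0,0,3,0]),(1,[3,0,0,0,0,0,0,0,0,0,0,0,0,0,3,0,0]),(1,[0,0,0,0,0,0,0,0,0,0,0,0,6,0,0,0,0]),(1,[0,0,0,0,0,0,0,0,0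,0,0,0,0,6,0,0,0])]),(6,[(1,[0,0,0,0,0,0,0,0,0,0,0,0,0,0,0,10,0]),(1,[0,6,0,0,0,0,0,0,0,0,0,0,0,0,0,0,0]),(1,[0,0,0,0,0,6,0,0,0,0,0,0,0,0,0,0,0]),(1,[0,0,0,0,0,0,2,0,0,0,0,0,0,0,0,0,0])]),(1,[(1,[0,3,0,0,0,0,0,0,0,0,0,0,0,0,3,0,0]),(1,[0,0,0,0,0,0,0,0,0,0,0,0,0,0,0,3,0]),(1,[0,0,0,0,0,0,0,0,0,0,0,0,6,0,0,0,0]),(1,[0,0,0,0,0,0,0,0,0,0,0,0,0,6,0,0,0])]),(10,[(1,[0,0,0,0,0,0,0,0,0,0,0,0,0,0,0,10,0]),(1,[0,6,0,0,0,0,0,0,0,0,0,0,0,0,0,0,0]),(1,[0,0,0,0,0,0,0,0,0,2,0,0,0,0,0,0,0]),(1,[0,0,6,0,0,0,0,0,0,0,0,0,0,0,0,0,0])]),(1,[(1,[0,0,0,0,0,0,0,0,0,0,0,0,0,0,0,3,0]),(1,[0,3,0,0,0,0,0,0,0,0,0,0,0,0,3,0,0]),(1,[0,0,0,0,0,0,0,0,0,0,0,0,6,0,0,0,0]),(1,[0,0,0,0,0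,0,0,0,0,0,0,0,0,6,0,0,0])]),(9,[(1,[0,0,0,0,0,0,0,0,0,0,0,0,0,0,0,10,0]),(1,[0,0,0,0,0,6,0,0,0,0,0,0,0,0,0,0,0]),(1,[0,0,0,0,0,0,0,0,0,0,0,2,0,0,0,0,0]),(1,[0,0,0,6,0,0,0,0,0,0,0,0,0,0,0,0,0])]),(0,[(2,[0,0,0,0,0,0,0,0,0,0,0,3,0,0,3,0,0]),(1,[0,0,0,0,0,0,0,0,0,0,0,0,0,0,0,3,0]),(1,[0,0,0,0,0,0,0,0,0,0,0,0,0,6,0,0,0]),(1,[0,0,0,0,0,0,0,0,0,0,0,0,6,0,0,0,0])]),(5,[(1,[0,0,0,0,0,0,0,0,0,0,0,0,0,0,0,30,0]),(1,[0,0,0,0,0,0,0,0,0,6,0,0,0,0,0,0,0]),(1,[0,0,0,0,0,0,0,0,0,0,0,6,0,0,0,0,0]),(1,[0,0,0,0,0,0,0,6,0,0,0,0,0,0,0,0,0])]),(0,[(1,[0,0,0,0,0,0,0,0,0,0,0,0,0,0,0,3,0]),(2,[0,0,0,0,0,0,0,0,0,0,0,3,0,0,9,0,0]),(1,[0,0,0,0,0,0,0,0,0,0,0,0,0,6,0,0,0]),(1,[0,0,0,0,0,0,0,0,0,0,0,0,6,0,0,0,0])])]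
   ]

def crl : List (ℕ × (ℕ × ℕ × List (ℕ × List ℕ)) × (ℕ × ℕ × List (ℕ × List ℕ))) :=
  [(2,(8,2,[(1,[0,0,0,0,0,0,0,0,0,0,0,0,10,10,0]),(1,[0,0,0,0,0,0,0,0,2,0,0,0,0,0,0]),(1,[6,0,0,0,0,0,0,0,0,0,0,0,0,0,0]),(1,[0,0,0,6,0,0,0,0,0,0,0,0,0,0,0]),(1,[0,0,0,0,0,0,0,0,0,0,0,0,6,0,0])]),(4,2,[(1,[0,0,0,0,0,0,0,0,0,0,0,0,10,10,0]),(1,[0,0,0,0,6,0,0,0,0,0,0,0,0,0,0]),(1,[6,0,0,0,0,0,0,0,0,0,0,0,0,0,0]),(1,[0,0,0,0,0,0,0,2,0,0,0,0,0,0,0]),(1,[0,0,0,0,0,0,0,0,0,0,0,0,6,0,0])]))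
   ,(2,(6,1,[(1,[0,0,0,0,0,0,0,0,0,0,0,0,10,10,0]),(1,[0,6,0,0,0,0,0,0,0,0,0,0,0,0,0]),(1,[0,0,0,0,0,6,0,0,0,0,0,0,0,0,0]),(1,[0,0,0,0,0,0,2,0,0,0,0,0,0,0,0]),(1,[0,0,0,0,0,0,0,0,0,0,0,0,6,0,0])]),(10,1,[(1,[0,0,0,0,0,0,0,0,0,0,0,0,10,10,0]),(1,[0,6,0,0,0,0,0,0,0,0,0,0,0,0,0]),(1,[0,0,0,0,0,0,0,0,0,2,0,0,0,0,0]),(1,[0,0,6,0,0,0,0,0,0,0,0,0,0,0,0]),(1,[0,0,0,0,0,0,0,0,0,0,0,0,6,0,0])]))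
   ,(0,(11,3,[(1,[0,0,0,0,0,0,0,0,0,0,0,0,10,10,0]),(1,[0,0,0,0,0,0,0,0,0,0,2,0,0,0,0]),(1,[0,0,0,0,6,0,0,0,0,0,0,0,0,0,0]),(1,[0,0,6,0,0,0,0,0,0,0,0,0,0,0,0]),(1,[0,0,0,0,0,0,0,0,0,0,0,0,6,0,0])]),(10,3,[(1,[0,0,0,0,0,0,0,0,0,0,0,0,10,10,0]),(1,[0,6,0,0,0,0,0,0,0,0,0,0,0,0,0]),(1,[0,0,0,0,0,0,0,0,0,2,0,0,0,0,0]),(1,[0,0,6,0,0,0,0,0,0,0,0,0,0,0,0]),(1,[0,0,0,0,0,0,0,0,0,0,0,0,6,0,0])]))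
   ,(0,(8,3,[(1,[0,0,0,0,0,0,0,0,0,0,0,0,10,10,0]),(1,[0,0,0,0,0,0,0,0,2,0,0,0,0,0,0]),(1,[6,0,0,0,0,0,0,0,0,0,0,0,0,0,0]),(1,[0,0,0,6,0,0,0,0,0,0,0,0,0,0,0]),(1,[0,0,0,0,0,0,0,0,0,0,0,0,6,0,0])]),(9,3,[(1,[0,0,0,0,0,0,0,0,0,0,0,0,10,10,0]),(1,[0,0,0,0,0,6,0,0,0,0,0,0,0,0,0]),(1,[0,0,0,0,0,0,0,0,0,0,0,2,0,0,0]),(1,[0,0,0,6,0,0,0,0,0,0,0,0,0,0,0]),(1,[0,0,0,0,0,0,0,0,0,0,0,0,6,0,0])]))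
   ,(1,(11,2,[(1,[0,0,0,0,0,0,0,0,0,0,0,0,10,10,0]),(1,[0,0,0,0,0,0,0,0,0,0,2,0,0,0,0]),(1,[0,0,0,0,6,0,0,0,0,0,0,0,0,0,0]),(1,[0,0,6,0,0,0,0,0,0,0,0,0,0,0,0]),(1,[0,0,0,0,0,0,0,0,0,0,0,0,6,0,0])]),(4,1,[(1,[0,0,0,0,0,0,0,0,0,0,0,0,10,10,0]),(1,[0,0,0,0,6,0,0,0,0,0,0,0,0,0,0]),(1,[6,0,0,0,0,0,0,0,0,0,0,0,0,0,0]),(1,[0,0,0,0,0,0,0,2,0,0,0,0,0,0,0]),(1,[0,0,0,0,0,0,0,0,0,0,0,0,6,0,0])]))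
   ,(1,(6,2,[(1,[0,0,0,0,0,0,0,0,0,0,0,0,10,10,0]),(1,[0,6,0,0,0,0,0,0,0,0,0,0,0,0,0]),(1,[0,0,0,0,0,6,0,0,0,0,0,0,0,0,0]),(1,[0,0,0,0,0,0,2,0,0,0,0,0,0,0,0]),(1,[0,0,0,0,0,0,0,0,0,0,0,0,6,0,0])]),(9,1,[(1,[0,0,0,0,0,0,0,0,0,0,0,0,10,10,0]),(1,[0,0,0,0,0,6,0,0,0,0,0,0,0,0,0]),(1,[0,0,0,0,0,0,0,0,0,0,0,2,0,0,0]),(1,[0,0,0,6,0,0,0,0,0,0,0,0,0,0,0]),(1,[0,0,0,0,0,0,0,0,0,0,0,0,6,0,0])]))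
   ,(0,(7,3,[(1,[0,0,0,0,0,0,0,0,0,0,0,0,15,15,0]),(1,[0,0,0,0,0,0,0,0,0,0,6,0,0,0,0]),(1,[0,0,0,0,0,0,0,0,6,0,0,0,0,0,0]),(1,[0,0,0,0,0,0,6,0,0,0,0,0,0,0,0]),(1,[0,0,0,0,0,0,0,0,0,0,0,0,6,0,0])]),(6,3,[(1,[0,0,0,0,0,0,0,0,0,0,0,0,5,15,0]),(1,[0,6,0,0,0,0,0,0,0,0,0,0,0,0,0]),(1,[0,0,0,0,0,6,0,0,0,0,0,0,0,0,0]),(1,[0,0,0,0,0,0,2,0,0,0,0,0,0,0,0]),(1,[0,0,0,0,0,0,0,0,0,0,0,0,2,0,0])]))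
   ,(0,(4,3,[(1,[0,0,0,0,0,0,0,0,0,0,0,0,5,15,0]),(1,[0,0,0,0,6,0,0,0,0,0,0,0,0,0,0]),(1,[6,0,0,0,0,0,0,0,0,0,0,0,0,0,0]),(1,[0,0,0,0,0,0,0,2,0,0,0,0,0,0,0]),(1,[0,0,0,0,0,0,0,0,0,0,0,0,2,0,0])]),(5,3,[(1,[0,0,0,0,0,0,0,0,0,0,0,0,15,15,0]),(1,[0,0,0,0,0,0,0,0,0,6,0,0,0,0,0]),(1,[0,0,0,0,0,0,0,0,0,0,0,6,0,0,0]),(1,[0,0,0,0,0,0,0,6,0,0,0,0,0,0,0]),(1,[0,0,0,0,0,0,0,0,0,0,0,0,6,0,0])]))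
   ,(1,(7,2,[(1,[0,0,0,0,0,0,0,0,0,0,0,0,15,15,0]),(1,[0,0,0,0,0,0,0,0,0,0,6,0,0,0,0]),(1,[0,0,0,0,0,0,0,0,6,0,0,0,0,0,0]),(1,[0,0,0,0,0,0,6,0,0,0,0,0,0,0,0]),(1,[0,0,0,0,0,0,0,0,0,0,0,0,6,0,0])]),(8,1,[(1,[0,0,0,0,0,0,0,0,0,0,0,0,5,15,0]),(1,[0,0,0,0,0,0,0,0,2,0,0,0,0,0,0]),(1,[6,0,0,0,0,0,0,0,0,0,0,0,0,0,0]),(1,[0,0,0,6,0,0,0,0,0,0,0,0,0,0,0]),(1,[0,0,0,0,0,0,0,0,0,0,0,0,2,0,0])]))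
   ,(1,(10,2,[(1,[0,0,0,0,0,0,0,0,0,0,0,0,5,15,0]),(1,[0,6,0,0,0,0,0,0,0,0,0,0,0,0,0]),(1,[0,0,0,0,0,0,0,0,0,2,0,0,0,0,0]),(1,[0,0,6,0,0,0,0,0,0,0,0,0,0,0,0]),(1,[0,0,0,0,0,0,0,0,0,0,0,0,2,0,0])]),(5,1,[(1,[0,0,0,0,0,0,0,0,0,0,0,0,15,15,0]),(1,[0,0,0,0,0,0,0,0,0,6,0,0,0,0,0]),(1,[0,0,0,0,0,0,0,0,0,0,0,6,0,0,0]),(1,[0,0,0,0,0,0,0,6,0,0,0,0,0,0,0]),(1,[0,0,0,0,0,0,0,0,0,0,0,0,6,0,0])]))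
   ,(2,(7,1,[(1,[0,0,0,0,0,0,0,0,0,0,0,0,15,15,0]),(1,[0,0,0,0,0,0,0,0,0,0,6,0,0,0,0]),(1,[0,0,0,0,0,0,0,0,6,0,0,0,0,0,0]),(1,[0,0,0,0,0,0,6,0,0,0,0,0,0,0,0]),(1,[0,0,0,0,0,0,0,0,0,0,0,0,6,0,0])]),(11,1,[(1,[0,0,0,0,0,0,0,0,0,0,0,0,5,15,0]),(1,[0,0,0,0,0,0,0,0,0,0,2,0,0,0,0]),(1,[0,0,0,0,6,0,0,0,0,0,0,0,0,0,0]),(1,[0,0,6,0,0,0,0,0,0,0,0,0,0,0,0]),(1,[0,0,0,0,0,0,0,0,0,0,0,0,2,0,0])]))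
   ,(2,(9,2,[(1,[0,0,0,0,0,0,0,0,0,0,0,0,5,15,0]),(1,[0,0,0,0,0,6,0,0,0,0,0,0,0,0,0]),(1,[0,0,0,0,0,0,0,0,0,0,0,2,0,0,0]),(1,[0,0,0,6,0,0,0,0,0,0,0,0,0,0,0]),(1,[0,0,0,0,0,0,0,0,0,0,0,0,2,0,0])]),(5,2,[(1,[0,0,0,0,0,0,0,0,0,0,0,0,15,15,0]),(1,[0,0,0,0,0,0,0,0,0,6,0,0,0,0,0]),(1,[0,0,0,0,0,0,0,0,0,0,0,6,0,0,0]),(1,[0,0,0,0,0,0,0,6,0,0,0,0,0,0,0]),(1,[0,0,0,0,0,0,0,0,0,0,0,0,6,0,0])]))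
   ]

def incl0 : List (List (ℕ × ℕ × List ℕ)) :=
  [[],[(2,1,[0,0,0,0,0,0,0,1,0])],[(2,1,[0,0,0,0,0,0,1,0,0]),(2,1,[0,0,0,0,0,0,0,1,0])],[(3,1,[0,0,0,0,0,0,1,0,0])],[(0,10,[0,0,0,0,3,0,0,0,0])],[(1,10,[0,0,0,0,1,0,0,0,0])],[(2,10,[0,10,0,10,3,0,0,0,0]),(2,10,[0,10,10,0,3,0,0,0,0]),(1,10,[0,0,0,0,3,0,0,0,0])],[(2,10,[10,0,0,10,1,0,0,0,0]),(2,10,[10,0,10,0,1,0,0,0,0]),(0,10,[0,0,0,0,1,0,0,0,0])],[(3,10,[10,0,0,0,3,0,0,0,0]),(0,10,[0,0,0,0,3,0,0,0,0])],[(3,10,[0,10,0,0,3,0,0,0,0]),(1,10,[0,0,0,0,3,0,0,0,0])],[(2,10,[0,10,0,0,3,0,0,0,0]),(1,10,[0,0,0,0,3,0,0,0,0])],[(2,10,[10,0,0,0,3,0,0,0,0]),(0,10,[0,0,0,0,3,0,0,0,0])]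
   ,[(3,1,[0,0,0,0,0,0,1,0,0])],[],[(2,1,[0,0,0,0,0,0,0,1,0])],[(2,1,[0,0,0,0,0,0,1,0,0]),(2,1,[0,0,0,0,0,0,0,1,0])],[(3,10,[10,0,0,0,3,0,0,0,0]),(0,10,[0,0,0,0,3,0,0,0,0])],[(3,10,[0,10,0,0,1,0,0,0,0]),(1,10,[0,0,0,0,1,0,0,0,0])],[(2,10,[0,10,0,0,3,0,0,0,0]),(1,10,[0,0,0,0,3,0,0,0,0])],[(2,10,[10,0,0,0,1,0,0,0,0]),(0,10,[0,0,0,0,1,0,0,0,0])],[(2,10,[10,0,0,10,3,0,0,0,0]),(2,10,[10,0,10,0,3,0,0,0,0]),(0,10,[0,0,0,0,3,0,0,0,0])],[(2,10,[0,10,0,10,3,0,0,0,0]),(2,10,[0,10,10,0,3,0,0,0,0]),(1,10,[0,0,0,0,3,0,0,0,0])],[(1,10,[0,0,0,0,3,0,0,0,0])],[(0,10,[0,0,0,0,3,0,0,0,0])]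
   ,[(2,1,[0,0,0,0,0,0,1,0,0]),(2,1,[0,0,0,0,0,0,0,1,0])],[(3,1,[0,0,0,0,0,0,1,0,0])],[],[(2,1,[0,0,0,0,0,0,0,1,0])],[(2,10,[10,0,0,10,3,0,0,0,0]),(2,10,[10,0,10,0,3,0,0,0,0]),(0,10,[0,0,0,0,3,0,0,0,0])],[(2,10,[0,10,0,10,1,0,0,0,0]),(2,10,[0,10,10,0,1,0,0,0,0]),(1,10,[0,0,0,0,1,0,0,0,0])],[(1,10,[0,0,0,0,3,0,0,0,0])],[(0,10,[0,0,0,0,1,0,0,0,0])],[(2,10,[10,0,0,0,3,0,0,0,0]),(0,10,[0,0,0,0,3,0,0,0,0])],[(2,10,[0,10,0,0,3,0,0,0,0]),(1,10,[0,0,0,0,3,0,0,0,0])],[(3,10,[0,10,0,0,3,0,0,0,0]),(1,10,[0,0,0,0,3,0,0,0,0])],[(3,10,[10,0,0,0,3,0,0,0,0]),(0,10,[0,0,0,0,3,0,0,0,0])]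
   ,[(2,1,[0,0,0,0,0,0,0,1,0])],[(2,1,[0,0,0,0,0,0,1,0,0]),(2,1,[0,0,0,0,0,0,0,1,0])],[(3,1,[0,0,0,0,0,0,1,0,0])],[],[(2,10,[10,0,0,0,3,0,0,0,0]),(0,10,[0,0,0,0,3,0,0,0,0])],[(2,10,[0,10,0,0,1,0,0,0,0]),(1,10,[0,0,0,0,1,0,0,0,0])],[(3,10,[0,10,0,0,3,0,0,0,0]),(1,10,[0,0,0,0,3,0,0,0,0])],[(3,10,[10,0,0,0,1,0,0,0,0]),(0,10,[0,0,0,0,1,0,0,0,0])],[(0,10,[0,0,0,0,3,0,0,0,0])],[(1,10,[0,0,0,0,3,0,0,0,0])],[(2,10,[0,10,0,10,3,0,0,0,0]),(2,10,[0,10,10,0,3,0,0,0,0]),(1,10,[0,0,0,0,3,0,0,0,0])],[(2,10,[10,0,0,10,3,0,0,0,0]),(2,10,[10,0,10,0,3,0,0,0,0]),(0,10,[0,0,0,0,3,0,0,0,0])]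
   ,[(0,3,[0,0,0,0,10,0,0,0,0])],[(0,3,[0,5,0,0,0,0,0,5,0]),(2,1,[0,0,0,0,0,0,0,1,0])],[(0,3,[0,5,0,0,0,0,5,0,0]),(2,1,[0,0,0,0,0,0,1,0,0]),(2,1,[0,0,0,0,0,0,0,1,0])],[(0,3,[0,0,5,0,0,0,5,0,0]),(3,1,[0,0,0,0,0,0,1,0,0])],[],[(0,1,[0,0,0,10,1,0,0,0,0]),(1,10,[0,0,0,0,1,0,0,0,0])],[(0,13,[0,10,10,10,3,0,0,0,0]),(2,10,[7,0,10,10,3,0,0,0,0]),(2,10,[7,10,0,10,3,0,0,0,0]),(1,10,[0,0,0,0,3,0,0,0,0])],[(0,9,[0,10,10,0,1,0,0,0,0]),(2,10,[3,0,10,0,1,0,0,0,0]),(2,10,[3,10,0,0,1,0,0,0,0]),(0,10,[0,0,0,0,1,0,0,0,0])],[(0,3,[0,0,10,0,3,0,0,0,0]),(3,5,[0,0,5,0,3,0,0,0,0]),(0,10,[0,0,0,0,3,0,0,0,0])],[(0,7,[0,0,10,10,3,0,0,0,0]),(3,10,[1,0,0,10,3,0,0,0,0]),(1,10,[0,0,0,0,3,0,0,0,0])],[(0,7,[0,10,0,10,3,0,0,0,0]),(2,10,[1,0,0,10,3,0,0,0,0]),(1,10,[0,0,0,0,3,0,0,0,0])],[(0,3,[0,10,0,0,3,0,0,0,0]),(2,5,[0,5,0,0,3,0,0,0,0]),(0,10,[0,0,0,0,3,0,0,0,0])]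
   ,[(0,1,[0,0,0,0,0,10,0,0,0])],[(0,2,[0,5,0,0,0,0,0,5,0]),(2,1,[0,0,0,0,0,0,0,1,0])],[(0,2,[0,5,0,0,0,0,5,0,0]),(2,1,[0,0,0,0,0,0,1,0,0]),(2,1,[0,0,0,0,0,0,0,1,0])],[(0,2,[0,0,5,0,0,0,5,0,0]),(3,1,[0,0,0,0,0,0,1,0,0])],[(0,3,[0,0,0,10,3,0,0,0,0]),(0,10,[0,0,0,0,3,0,0,0,0])],[],[(0,7,[0,10,10,0,3,0,0,0,0]),(2,10,[3,0,10,0,3,0,0,0,0]),(2,10,[3,10,0,0,3,0,0,0,0]),(1,10,[0,0,0,0,3,0,0,0,0])],[(0,11,[0,10,10,10,1,0,0,0,0]),(2,10,[7,0,10,10,1,0,0,0,0]),(2,10,[7,10,0,10,1,0,0,0,0]),(0,10,[0,0,0,0,1,0,0,0,0])],[(0,7,[0,0,10,10,3,0,0,0,0]),(3,10,[3,0,0,10,3,0,0,0,0]),(0,10,[0,0,0,0,3,0,0,0,0])],[(0,3,[0,0,10,0,3,0,0,0,0]),(3,15,[0,0,5,0,6,0,0,0,0]),(1,10,[0,0,0,0,3,0,0,0,0])],[(0,3,[0,10,0,0,3,0,0,0,0]),(2,15,[0,5,0,0,6,0,0,0,0]),(1,10,[0,0,0,0,3,0,0,0,0])],[(0,7,[0,10,0,10,3,0,0,0,0]),(2,10,[3,0,0,10,3,0,0,0,0]),(0,10,[0,0,0,0,3,0,0,0,0])]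
   ,[(0,3,[0,0,5,0,0,0,5,0,0]),(2,1,[0,0,0,0,0,0,1,0,0]),(2,1,[0,0,0,0,0,0,0,1,0])],[(0,3,[0,5,0,0,0,0,5,0,0]),(3,1,[0,0,0,0,0,0,1,0,0])],[(0,3,[0,0,0,0,0,10,0,0,0])],[(0,3,[0,0,5,0,0,0,0,5,0]),(2,1,[0,0,0,0,0,0,0,1,0])],[(0,13,[0,10,10,10,3,0,0,0,0]),(2,10,[7,10,0,10,3,0,0,0,0]),(2,10,[7,0,10,10,3,0,0,0,0]),(0,10,[0,0,0,0,3,0,0,0,0])],[(0,9,[0,10,10,0,1,0,0,0,0]),(2,10,[3,10,0,0,1,0,0,0,0]),(2,10,[3,0,10,0,1,0,0,0,0]),(1,10,[0,0,0,0,1,0,0,0,0])],[],[(0,1,[0,0,0,10,1,0,0,0,0]),(0,10,[0,0,0,0,1,0,0,0,0])],[(0,7,[0,0,10,10,3,0,0,0,0]),(2,10,[1,0,0,10,3,0,0,0,0]),(0,10,[0,0,0,0,3,0,0,0,0])],[(0,3,[0,0,10,0,3,0,0,0,0]),(2,5,[0,0,5,0,3,0,0,0,0]),(1,10,[0,0,0,0,3,0,0,0,0])],[(0,3,[0,10,0,0,3,0,0,0,0]),(3,5,[0,5,0,0,3,0,0,0,0]),(1,10,[0,0,0,0,3,0,0,0,0])],[(0,7,[0,10,0,10,3,0,0,0,0]),(3,10,[1,0,0,10,3,0,0,0,0]),(0,10,[0,0,0,0,3,0,0,0,0])]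
   ,[(0,2,[0,0,5,0,0,0,5,0,0]),(2,1,[0,0,0,0,0,0,1,0,0]),(2,1,[0,0,0,0,0,0,0,1,0])],[(0,2,[0,5,0,0,0,0,5,0,0]),(3,1,[0,0,0,0,0,0,1,0,0])],[(0,1,[0,0,0,0,10,0,0,0,0])],[(0,2,[0,0,5,0,0,0,0,5,0]),(2,1,[0,0,0,0,0,0,0,1,0])],[(0,7,[0,10,10,0,3,0,0,0,0]),(2,10,[3,10,0,0,3,0,0,0,0]),(2,10,[3,0,10,0,3,0,0,0,0]),(0,10,[0,0,0,0,3,0,0,0,0])],[(0,11,[0,10,10,10,1,0,0,0,0]),(2,10,[7,10,0,10,1,0,0,0,0]),(2,10,[7,0,10,10,1,0,0,0,0]),(1,10,[0,0,0,0,1,0,0,0,0])],[(0,3,[0,0,0,10,3,0,0,0,0]),(1,10,[0,0,0,0,3,0,0,0,0])],[],[(0,3,[0,0,10,0,3,0,0,0,0]),(2,15,[0,0,5,0,6,0,0,0,0]),(0,10,[0,0,0,0,3,0,0,0,0])],[(0,7,[0,0,10,10,3,0,0,0,0]),(2,10,[3,0,0,10,3,0,0,0,0]),(1,10,[0,0,0,0,3,0,0,0,0])],[(0,7,[0,10,0,10,3,0,0,0,0]),(3,10,[3,0,0,10,3,0,0,0,0]),(1,10,[0,0,0,0,3,0,0,0,0])],[(0,3,[0,10,0,0,3,0,0,0,0]),(3,15,[0,5,0,0,6,0,0,0,0]),(0,10,[0,0,0,0,3,0,0,0,0])]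
   ,[(0,3,[0,0,5,0,0,0,0,5,0]),(2,1,[0,0,0,0,0,0,0,1,0])],[(0,3,[0,0,5,0,0,0,5,0,0]),(2,1,[0,0,0,0,0,0,1,0,0]),(2,1,[0,0,0,0,0,0,0,1,0])],[(0,2,[0,5,0,0,0,0,5,0,0]),(3,1,[0,0,0,0,0,0,1,0,0])],[(0,3,[0,0,0,0,10,0,0,0,0])],[(0,3,[0,0,10,0,3,0,0,0,0]),(2,5,[0,0,5,0,3,0,0,0,0]),(0,10,[0,0,0,0,3,0,0,0,0])],[(0,9,[0,0,10,10,1,0,0,0,0]),(2,10,[3,0,0,10,1,0,0,0,0]),(1,10,[0,0,0,0,1,0,0,0,0])],[(0,7,[0,10,0,10,3,0,0,0,0]),(3,10,[3,0,0,10,3,0,0,0,0]),(1,10,[0,0,0,0,3,0,0,0,0])],[(0,1,[0,10,0,0,1,0,0,0,0]),(3,5,[0,15,0,0,2,0,0,0,0]),(0,10,[0,0,0,0,1,0,0,0,0])],[],[(0,3,[0,0,0,10,3,0,0,0,0]),(1,10,[0,0,0,0,3,0,0,0,0])],[(0,13,[0,10,10,10,3,0,0,0,0]),(2,10,[7,10,0,10,3,0,0,0,0]),(2,10,[9,0,10,10,3,0,0,0,0]),(1,10,[0,0,0,0,3,0,0,0,0])],[(0,7,[0,10,10,0,3,0,0,0,0]),(2,10,[1,10,0,0,3,0,0,0,0]),(2,10,[3,0,10,0,3,0,0,0,0]),(0,10,[0,0,0,0,3,0,0,0,0])]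
   ,[(0,2,[0,0,5,0,0,0,0,5,0]),(2,1,[0,0,0,0,0,0,0,1,0])],[(0,2,[0,0,5,0,0,0,5,0,0]),(2,1,[0,0,0,0,0,0,1,0,0]),(2,1,[0,0,0,0,0,0,0,1,0])],[(0,3,[0,5,0,0,0,0,5,0,0]),(3,1,[0,0,0,0,0,0,1,0,0])],[(0,3,[0,0,0,0,0,10,0,0,0])],[(0,7,[0,0,10,10,3,0,0,0,0]),(2,10,[3,0,0,10,3,0,0,0,0]),(0,10,[0,0,0,0,3,0,0,0,0])],[(0,1,[0,0,10,0,1,0,0,0,0]),(2,5,[0,0,15,0,2,0,0,0,0]),(1,10,[0,0,0,0,1,0,0,0,0])],[(0,3,[0,10,0,0,3,0,0,0,0]),(3,5,[0,5,0,0,3,0,0,0,0]),(1,10,[0,0,0,0,3,0,0,0,0])],[(0,9,[0,10,0,10,1,0,0,0,0]),(3,10,[3,0,0,10,1,0,0,0,0]),(0,10,[0,0,0,0,1,0,0,0,0])],[(0,3,[0,0,0,10,3,0,0,0,0]),(0,10,[0,0,0,0,3,0,0,0,0])],[],[(0,7,[0,10,10,0,3,0,0,0,0]),(2,10,[3,10,0,0,3,0,0,0,0]),(2,10,[1,0,10,0,3,0,0,0,0]),(1,10,[0,0,0,0,3,0,0,0,0])],[(0,13,[0,10,10,10,3,0,0,0,0]),(2,10,[9,10,0,10,3,0,0,0,0]),(2,10,[7,0,10,10,3,0,0,0,0]),(0,10,[0,0,0,0,3,0,0,0,0])]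
   ,[(0,2,[0,0,5,0,0,0,5,0,0]),(3,1,[0,0,0,0,0,0,1,0,0])],[(0,3,[0,0,0,0,0,10,0,0,0])],[(0,3,[0,5,0,0,0,0,0,5,0]),(2,1,[0,0,0,0,0,0,0,1,0])],[(0,3,[0,5,0,0,0,0,5,0,0]),(2,1,[0,0,0,0,0,0,1,0,0]),(2,1,[0,0,0,0,0,0,0,1,0])],[(0,7,[0,0,10,10,3,0,0,0,0]),(3,10,[3,0,0,10,3,0,0,0,0]),(0,10,[0,0,0,0,3,0,0,0,0])],[(0,1,[0,0,10,0,1,0,0,0,0]),(3,5,[0,0,15,0,2,0,0,0,0]),(1,10,[0,0,0,0,1,0,0,0,0])],[(0,3,[0,10,0,0,3,0,0,0,0]),(2,5,[0,5,0,0,3,0,0,0,0]),(1,10,[0,0,0,0,3,0,0,0,0])],[(0,9,[0,10,0,10,1,0,0,0,0]),(2,10,[3,0,0,10,1,0,0,0,0]),(0,10,[0,0,0,0,1,0,0,0,0])],[(0,13,[0,10,10,10,3,0,0,0,0]),(2,10,[7,0,10,10,3,0,0,0,0]),(2,10,[9,10,0,10,3,0,0,0,0]),(0,10,[0,0,0,0,3,0,0,0,0])],[(0,7,[0,10,10,0,3,0,0,0,0]),(2,10,[1,0,10,0,3,0,0,0,0]),(2,10,[3,10,0,0,3,0,0,0,0]),(1,10,[0,0,0,0,3,0,0,0,0])],[],[(0,3,[0,0,0,10,3,0,0,0,0]),(0,10,[0,0,0,0,3,0,0,0,0])]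
   ,[(0,3,[0,0,5,0,0,0,5,0,0]),(3,1,[0,0,0,0,0,0,1,0,0])],[(0,3,[0,0,0,0,10,0,0,0,0])],[(0,2,[0,5,0,0,0,0,0,5,0]),(2,1,[0,0,0,0,0,0,0,1,0])],[(0,2,[0,5,0,0,0,0,5,0,0]),(2,1,[0,0,0,0,0,0,1,0,0]),(2,1,[0,0,0,0,0,0,0,1,0])],[(0,3,[0,0,10,0,3,0,0,0,0]),(3,5,[0,0,5,0,3,0,0,0,0]),(0,10,[0,0,0,0,3,0,0,0,0])],[(0,9,[0,0,10,10,1,0,0,0,0]),(3,10,[3,0,0,10,1,0,0,0,0]),(1,10,[0,0,0,0,1,0,0,0,0])],[(0,7,[0,10,0,10,3,0,0,0,0]),(2,10,[3,0,0,10,3,0,0,0,0]),(1,10,[0,0,0,0,3,0,0,0,0])],[(0,1,[0,10,0,0,1,0,0,0,0]),(2,5,[0,15,0,0,2,0,0,0,0]),(0,10,[0,0,0,0,1,0,0,0,0])],[(0,7,[0,10,10,0,3,0,0,0,0]),(2,10,[3,0,10,0,3,0,0,0,0]),(2,10,[1,10,0,0,3,0,0,0,0]),(0,10,[0,0,0,0,3,0,0,0,0])],[(0,13,[0,10,10,10,3,0,0,0,0]),(2,10,[9,0,10,10,3,0,0,0,0]),(2,10,[7,10,0,10,3,0,0,0,0]),(1,10,[0,0,0,0,3,0,0,0,0])],[(0,3,[0,0,0,10,3,0,0,0,0]),(1,10,[0,0,0,0,3,0,0,0,0])],[]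
   ]

def incl1 : List (List (ℕ × ℕ × List ℕ)) :=
  [[],[(2,1,[0,0,0,0,0,0,0,1,0])],[(2,1,[0,0,0,0,0,0,1,0,0]),(2,1,[0,0,0,0,0,0,0,1,0])],[(3,1,[0,0,0,0,0,0,1,0,0])],[(3,10,[0,10,0,0,3,0,0,0,0]),(1,10,[0,0,0,0,3,0,0,0,0])],[(1,10,[0,0,0,0,1,0,0,0,0])],[(2,10,[10,0,0,0,3,0,0,0,0]),(0,10,[0,0,0,0,3,0,0,0,0])],[(2,10,[10,0,0,10,1,0,0,0,0]),(2,10,[10,0,10,0,1,0,0,0,0]),(0,10,[0,0,0,0,1,0,0,0,0])],[(2,10,[0,10,0,10,3,0,0,0,0]),(2,10,[0,10,10,0,3,0,0,0,0]),(1,10,[0,0,0,0,3,0,0,0,0])],[(2,10,[0,10,0,0,3,0,0,0,0]),(1,10,[0,0,0,0,3,0,0,0,0])],[(0,10,[0,0,0,0,3,0,0,0,0])],[(3,10,[10,0,0,0,3,0,0,0,0]),(0,10,[0,0,0,0,3,0,0,0,0])]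
   ,[(3,1,[0,0,0,0,0,0,1,0,0])],[],[(2,1,[0,0,0,0,0,0,0,1,0])],[(2,1,[0,0,0,0,0,0,1,0,0]),(2,1,[0,0,0,0,0,0,0,1,0])],[(2,10,[0,10,0,10,3,0,0,0,0]),(2,10,[0,10,10,0,3,0,0,0,0]),(1,10,[0,0,0,0,3,0,0,0,0])],[(3,10,[0,10,0,0,1,0,0,0,0]),(1,10,[0,0,0,0,1,0,0,0,0])],[(0,10,[0,0,0,0,3,0,0,0,0])],[(2,10,[10,0,0,0,1,0,0,0,0]),(0,10,[0,0,0,0,1,0,0,0,0])],[(2,10,[0,10,0,0,3,0,0,0,0]),(1,10,[0,0,0,0,3,0,0,0,0])],[(1,10,[0,0,0,0,3,0,0,0,0])],[(3,10,[10,0,0,0,3,0,0,0,0]),(0,10,[0,0,0,0,3,0,0,0,0])],[(2,10,[10,0,0,10,3,0,0,0,0]),(2,10,[10,0,10,0,3,0,0,0,0]),(0,10,[0,0,0,0,3,0,0,0,0])]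
   ,[(2,1,[0,0,0,0,0,0,1,0,0]),(2,1,[0,0,0,0,0,0,0,1,0])],[(3,1,[0,0,0,0,0,0,1,0,0])],[],[(2,1,[0,0,0,0,0,0,0,1,0])],[(2,10,[0,10,0,0,3,0,0,0,0]),(1,10,[0,0,0,0,3,0,0,0,0])],[(2,10,[0,10,0,10,1,0,0,0,0]),(2,10,[0,10,10,0,1,0,0,0,0]),(1,10,[0,0,0,0,1,0,0,0,0])],[(3,10,[10,0,0,0,3,0,0,0,0]),(0,10,[0,0,0,0,3,0,0,0,0])],[(0,10,[0,0,0,0,1,0,0,0,0])],[(1,10,[0,0,0,0,3,0,0,0,0])],[(3,10,[0,10,0,0,3,0,0,0,0]),(1,10,[0,0,0,0,3,0,0,0,0])],[(2,10,[10,0,0,10,3,0,0,0,0]),(2,10,[10,0,10,0,3,0,0,0,0]),(0,10,[0,0,0,0,3,0,0,0,0])],[(2,10,[10,0,0,0,3,0,0,0,0]),(0,10,[0,0,0,0,3,0,0,0,0])]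
   ,[(2,1,[0,0,0,0,0,0,0,1,0])],[(2,1,[0,0,0,0,0,0,1,0,0]),(2,1,[0,0,0,0,0,0,0,1,0])],[(3,1,[0,0,0,0,0,0,1,0,0])],[],[(1,10,[0,0,0,0,3,0,0,0,0])],[(2,10,[0,10,0,0,1,0,0,0,0]),(1,10,[0,0,0,0,1,0,0,0,0])],[(2,10,[10,0,0,10,3,0,0,0,0]),(2,10,[10,0,10,0,3,0,0,0,0]),(0,10,[0,0,0,0,3,0,0,0,0])],[(3,10,[10,0,0,0,1,0,0,0,0]),(0,10,[0,0,0,0,1,0,0,0,0])],[(3,10,[0,10,0,0,3,0,0,0,0]),(1,10,[0,0,0,0,3,0,0,0,0])],[(2,10,[0,10,0,10,3,0,0,0,0]),(2,10,[0,10,10,0,3,0,0,0,0]),(1,10,[0,0,0,0,3,0,0,0,0])],[(2,10,[10,0,0,0,3,0,0,0,0]),(0,10,[0,0,0,0,3,0,0,0,0])],[(0,10,[0,0,0,0,3,0,0,0,0])]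
   ,[(0,2,[0,0,0,5,0,0,0,5,0]),(2,1,[0,0,0,0,0,0,0,1,0])],[(0,2,[0,0,0,5,0,0,5,0,0]),(2,1,[0,0,0,0,0,0,1,0,0]),(2,1,[0,0,0,0,0,0,0,1,0])],[(0,3,[0,0,5,0,0,0,5,0,0]),(3,1,[0,0,0,0,0,0,1,0,0])],[(0,3,[0,0,0,0,0,10,0,0,0])],[],[(0,1,[0,0,0,10,1,0,0,0,0]),(2,5,[0,0,0,15,2,0,0,0,0]),(1,10,[0,0,0,0,1,0,0,0,0])],[(0,13,[0,10,10,10,3,0,0,0,0]),(2,10,[9,10,10,0,3,0,0,0,0]),(2,10,[7,10,0,10,3,0,0,0,0]),(0,10,[0,0,0,0,3,0,0,0,0])],[(0,9,[0,10,10,0,1,0,0,0,0]),(3,10,[3,10,0,0,1,0,0,0,0]),(0,10,[0,0,0,0,1,0,0,0,0])],[(0,3,[0,0,10,0,3,0,0,0,0]),(3,5,[0,0,5,0,3,0,0,0,0]),(1,10,[0,0,0,0,3,0,0,0,0])],[(0,7,[0,0,10,10,3,0,0,0,0]),(2,10,[3,0,10,0,3,0,0,0,0]),(2,10,[1,0,0,10,3,0,0,0,0]),(1,10,[0,0,0,0,3,0,0,0,0])],[(0,7,[0,10,0,10,3,0,0,0,0]),(2,10,[3,10,0,0,3,0,0,0,0]),(0,10,[0,0,0,0,3,0,0,0,0])],[(0,3,[0,10,0,0,3,0,0,0,0]),(0,10,[0,0,0,0,3,0,0,0,0])]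
   ,[(0,1,[0,0,0,0,0,10,0,0,0])],[(0,2,[0,0,5,0,0,0,0,5,0]),(2,1,[0,0,0,0,0,0,0,1,0])],[(0,2,[0,0,5,0,0,0,5,0,0]),(2,1,[0,0,0,0,0,0,1,0,0]),(2,1,[0,0,0,0,0,0,0,1,0])],[(0,2,[0,0,0,5,0,0,5,0,0]),(3,1,[0,0,0,0,0,0,1,0,0])],[(0,3,[0,0,0,10,3,0,0,0,0]),(3,15,[0,0,0,5,6,0,0,0,0]),(1,10,[0,0,0,0,3,0,0,0,0])],[],[(0,7,[0,10,10,0,3,0,0,0,0]),(2,10,[3,10,0,0,3,0,0,0,0]),(0,10,[0,0,0,0,3,0,0,0,0])],[(0,11,[0,10,10,10,1,0,0,0,0]),(2,10,[7,10,0,10,1,0,0,0,0]),(2,10,[7,10,10,0,1,0,0,0,0]),(0,10,[0,0,0,0,1,0,0,0,0])],[(0,7,[0,0,10,10,3,0,0,0,0]),(2,10,[3,0,0,10,3,0,0,0,0]),(2,10,[3,0,10,0,3,0,0,0,0]),(1,10,[0,0,0,0,3,0,0,0,0])],[(0,3,[0,0,10,0,3,0,0,0,0]),(2,15,[0,0,5,0,6,0,0,0,0]),(1,10,[0,0,0,0,3,0,0,0,0])],[(0,3,[0,10,0,0,3,0,0,0,0]),(0,10,[0,0,0,0,3,0,0,0,0])],[(0,7,[0,10,0,10,3,0,0,0,0]),(3,10,[3,10,0,0,3,0,0,0,0]),(0,10,[0,0,0,0,3,0,0,0,0])]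
   ,[(0,3,[0,5,0,0,0,0,5,0,0]),(3,1,[0,0,0,0,0,0,1,0,0])],[(0,3,[0,0,0,0,10,0,0,0,0])],[(0,2,[0,0,0,5,0,0,0,5,0]),(2,1,[0,0,0,0,0,0,0,1,0])],[(0,2,[0,0,0,5,0,0,5,0,0]),(2,1,[0,0,0,0,0,0,1,0,0]),(2,1,[0,0,0,0,0,0,0,1,0])],[(0,13,[0,10,10,10,3,0,0,0,0]),(2,10,[9,10,10,0,3,0,0,0,0]),(2,10,[7,0,10,10,3,0,0,0,0]),(1,10,[0,0,0,0,3,0,0,0,0])],[(0,9,[0,10,10,0,1,0,0,0,0]),(3,10,[3,0,10,0,1,0,0,0,0]),(1,10,[0,0,0,0,1,0,0,0,0])],[],[(0,1,[0,0,0,10,1,0,0,0,0]),(2,5,[0,0,0,15,2,0,0,0,0]),(0,10,[0,0,0,0,1,0,0,0,0])],[(0,7,[0,0,10,10,3,0,0,0,0]),(2,10,[3,0,10,0,3,0,0,0,0]),(1,10,[0,0,0,0,3,0,0,0,0])],[(0,3,[0,0,10,0,3,0,0,0,0]),(1,10,[0,0,0,0,3,0,0,0,0])],[(0,3,[0,10,0,0,3,0,0,0,0]),(3,5,[0,5,0,0,3,0,0,0,0]),(0,10,[0,0,0,0,3,0,0,0,0])],[(0,7,[0,10,0,10,3,0,0,0,0]),(2,10,[3,10,0,0,3,0,0,0,0]),(2,10,[1,0,0,10,3,0,0,0,0]),(0,10,[0,0,0,0,3,0,0,0,0])]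
   ,[(0,2,[0,5,0,0,0,0,5,0,0]),(2,1,[0,0,0,0,0,0,1,0,0]),(2,1,[0,0,0,0,0,0,0,1,0])],[(0,2,[0,0,0,5,0,0,5,0,0]),(3,1,[0,0,0,0,0,0,1,0,0])],[(0,1,[0,0,0,0,10,0,0,0,0])],[(0,2,[0,5,0,0,0,0,0,5,0]),(2,1,[0,0,0,0,0,0,0,1,0])],[(0,7,[0,10,10,0,3,0,0,0,0]),(2,10,[3,0,10,0,3,0,0,0,0]),(1,10,[0,0,0,0,3,0,0,0,0])],[(0,11,[0,10,10,10,1,0,0,0,0]),(2,10,[7,0,10,10,1,0,0,0,0]),(2,10,[7,10,10,0,1,0,0,0,0]),(1,10,[0,0,0,0,1,0,0,0,0])],[(0,3,[0,0,0,10,3,0,0,0,0]),(3,15,[0,0,0,5,6,0,0,0,0]),(0,10,[0,0,0,0,3,0,0,0,0])],[],[(0,3,[0,0,10,0,3,0,0,0,0]),(1,10,[0,0,0,0,3,0,0,0,0])],[(0,7,[0,0,10,10,3,0,0,0,0]),(3,10,[3,0,10,0,3,0,0,0,0]),(1,10,[0,0,0,0,3,0,0,0,0])],[(0,7,[0,10,0,10,3,0,0,0,0]),(2,10,[3,0,0,10,3,0,0,0,0]),(2,10,[3,10,0,0,3,0,0,0,0]),(0,10,[0,0,0,0,3,0,0,0,0])],[(0,3,[0,10,0,0,3,0,0,0,0]),(2,15,[0,5,0,0,6,0,0,0,0]),(0,10,[0,0,0,0,3,0,0,0,0])]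
   ,[(0,3,[0,0,5,0,0,0,5,0,0]),(2,1,[0,0,0,0,0,0,1,0,0]),(2,1,[0,0,0,0,0,0,0,1,0])],[(0,3,[0,0,0,5,0,0,5,0,0]),(3,1,[0,0,0,0,0,0,1,0,0])],[(0,3,[0,0,0,0,0,10,0,0,0])],[(0,3,[0,0,5,0,0,0,0,5,0]),(2,1,[0,0,0,0,0,0,0,1,0])],[(0,3,[0,0,10,0,3,0,0,0,0]),(2,5,[0,0,5,0,3,0,0,0,0]),(1,10,[0,0,0,0,3,0,0,0,0])],[(0,9,[0,0,10,10,1,0,0,0,0]),(2,10,[3,0,0,10,1,0,0,0,0]),(2,10,[3,0,10,0,1,0,0,0,0]),(1,10,[0,0,0,0,1,0,0,0,0])],[(0,7,[0,10,0,10,3,0,0,0,0]),(3,10,[1,10,0,0,3,0,0,0,0]),(0,10,[0,0,0,0,3,0,0,0,0])],[(0,1,[0,10,0,0,1,0,0,0,0]),(0,10,[0,0,0,0,1,0,0,0,0])],[],[(0,3,[0,0,0,10,3,0,0,0,0]),(3,5,[0,0,0,5,3,0,0,0,0]),(1,10,[0,0,0,0,3,0,0,0,0])],[(0,13,[0,10,10,10,3,0,0,0,0]),(2,10,[7,10,0,10,3,0,0,0,0]),(2,10,[7,10,10,0,3,0,0,0,0]),(0,10,[0,0,0,0,3,0,0,0,0])],[(0,7,[0,10,10,0,3,0,0,0,0]),(2,10,[1,10,0,0,3,0,0,0,0]),(0,10,[0,0,0,0,3,0,0,0,0])]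
   ,[(0,2,[0,0,5,0,0,0,5,0,0]),(3,1,[0,0,0,0,0,0,1,0,0])],[(0,3,[0,0,0,0,0,10,0,0,0])],[(0,3,[0,0,0,5,0,0,0,5,0]),(2,1,[0,0,0,0,0,0,0,1,0])],[(0,3,[0,0,0,5,0,0,5,0,0]),(2,1,[0,0,0,0,0,0,1,0,0]),(2,1,[0,0,0,0,0,0,0,1,0])],[(0,7,[0,0,10,10,3,0,0,0,0]),(2,10,[1,0,10,0,3,0,0,0,0]),(2,10,[3,0,0,10,3,0,0,0,0]),(1,10,[0,0,0,0,3,0,0,0,0])],[(0,1,[0,0,10,0,1,0,0,0,0]),(3,5,[0,0,15,0,2,0,0,0,0]),(1,10,[0,0,0,0,1,0,0,0,0])],[(0,3,[0,10,0,0,3,0,0,0,0]),(0,10,[0,0,0,0,3,0,0,0,0])],[(0,9,[0,10,0,10,1,0,0,0,0]),(2,10,[3,10,0,0,1,0,0,0,0]),(0,10,[0,0,0,0,1,0,0,0,0])],[(0,3,[0,0,0,10,3,0,0,0,0]),(2,5,[0,0,0,5,3,0,0,0,0]),(1,10,[0,0,0,0,3,0,0,0,0])],[],[(0,7,[0,10,10,0,3,0,0,0,0]),(3,10,[3,10,0,0,3,0,0,0,0]),(0,10,[0,0,0,0,3,0,0,0,0])],[(0,13,[0,10,10,10,3,0,0,0,0]),(2,10,[7,10,10,0,3,0,0,0,0]),(2,10,[9,10,0,10,3,0,0,0,0]),(0,10,[0,0,0,0,3,0,0,0,0])]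
   ,[(0,3,[0,0,0,0,10,0,0,0,0])],[(0,3,[0,5,0,0,0,0,0,5,0]),(2,1,[0,0,0,0,0,0,0,1,0])],[(0,3,[0,5,0,0,0,0,5,0,0]),(2,1,[0,0,0,0,0,0,1,0,0]),(2,1,[0,0,0,0,0,0,0,1,0])],[(0,3,[0,0,0,5,0,0,5,0,0]),(3,1,[0,0,0,0,0,0,1,0,0])],[(0,7,[0,0,10,10,3,0,0,0,0]),(3,10,[1,0,10,0,3,0,0,0,0]),(1,10,[0,0,0,0,3,0,0,0,0])],[(0,1,[0,0,10,0,1,0,0,0,0]),(1,10,[0,0,0,0,1,0,0,0,0])],[(0,3,[0,10,0,0,3,0,0,0,0]),(2,5,[0,5,0,0,3,0,0,0,0]),(0,10,[0,0,0,0,3,0,0,0,0])],[(0,9,[0,10,0,10,1,0,0,0,0]),(2,10,[3,0,0,10,1,0,0,0,0]),(2,10,[3,10,0,0,1,0,0,0,0]),(0,10,[0,0,0,0,1,0,0,0,0])],[(0,13,[0,10,10,10,3,0,0,0,0]),(2,10,[7,0,10,10,3,0,0,0,0]),(2,10,[7,10,10,0,3,0,0,0,0]),(1,10,[0,0,0,0,3,0,0,0,0])],[(0,7,[0,10,10,0,3,0,0,0,0]),(2,10,[1,0,10,0,3,0,0,0,0]),(1,10,[0,0,0,0,3,0,0,0,0])],[],[(0,3,[0,0,0,10,3,0,0,0,0]),(3,5,[0,0,0,5,3,0,0,0,0]),(0,10,[0,0,0,0,3,0,0,0,0])]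
   ,[(0,3,[0,0,0,5,0,0,0,5,0]),(2,1,[0,0,0,0,0,0,0,1,0])],[(0,3,[0,0,0,5,0,0,5,0,0]),(2,1,[0,0,0,0,0,0,1,0,0]),(2,1,[0,0,0,0,0,0,0,1,0])],[(0,2,[0,5,0,0,0,0,5,0,0]),(3,1,[0,0,0,0,0,0,1,0,0])],[(0,3,[0,0,0,0,10,0,0,0,0])],[(0,3,[0,0,10,0,3,0,0,0,0]),(1,10,[0,0,0,0,3,0,0,0,0])],[(0,9,[0,0,10,10,1,0,0,0,0]),(2,10,[3,0,10,0,1,0,0,0,0]),(1,10,[0,0,0,0,1,0,0,0,0])],[(0,7,[0,10,0,10,3,0,0,0,0]),(2,10,[1,10,0,0,3,0,0,0,0]),(2,10,[3,0,0,10,3,0,0,0,0]),(0,10,[0,0,0,0,3,0,0,0,0])],[(0,1,[0,10,0,0,1,0,0,0,0]),(3,5,[0,15,0,0,2,0,0,0,0]),(0,10,[0,0,0,0,1,0,0,0,0])],[(0,7,[0,10,10,0,3,0,0,0,0]),(3,10,[3,0,10,0,3,0,0,0,0]),(1,10,[0,0,0,0,3,0,0,0,0])],[(0,13,[0,10,10,10,3,0,0,0,0]),(2,10,[7,10,10,0,3,0,0,0,0]),(2,10,[9,0,10,10,3,0,0,0,0]),(1,10,[0,0,0,0,3,0,0,0,0])],[(0,3,[0,0,0,10,3,0,0,0,0]),(2,5,[0,0,0,5,3,0,0,0,0]),(0,10,[0,0,0,0,3,0,0,0,0])],[]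
   ]

def incl2 : List (List (ℕ × ℕ × List ℕ)) :=
  [[],[(2,1,[0,0,0,0,0,0,0,1,0])],[(2,1,[0,0,0,0,0,0,1,0,0]),(2,1,[0,0,0,0,0,0,0,1,0])],[(3,1,[0,0,0,0,0,0,1,0,0])],[(3,10,[10,0,0,0,3,0,0,0,0]),(0,10,[0,0,0,0,3,0,0,0,0])],[(0,10,[0,0,0,0,1,0,0,0,0])],[(2,10,[0,10,0,0,3,0,0,0,0]),(1,10,[0,0,0,0,3,0,0,0,0])],[(2,10,[0,10,0,10,1,0,0,0,0]),(2,10,[0,10,10,0,1,0,0,0,0]),(1,10,[0,0,0,0,1,0,0,0,0])],[(3,10,[0,10,0,0,3,0,0,0,0]),(1,10,[0,0,0,0,3,0,0,0,0])],[(1,10,[0,0,0,0,3,0,0,0,0])],[(2,10,[10,0,0,0,3,0,0,0,0]),(0,10,[0,0,0,0,3,0,0,0,0])],[(2,10,[10,0,0,10,3,0,0,0,0]),(2,10,[10,0,10,0,3,0,0,0,0]),(0,10,[0,0,0,0,3,0,0,0,0])]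
   ,[(3,1,[0,0,0,0,0,0,1,0,0])],[],[(2,1,[0,0,0,0,0,0,0,1,0])],[(2,1,[0,0,0,0,0,0,1,0,0]),(2,1,[0,0,0,0,0,0,0,1,0])],[(2,10,[10,0,0,10,3,0,0,0,0]),(2,10,[10,0,10,0,3,0,0,0,0]),(0,10,[0,0,0,0,3,0,0,0,0])],[(3,10,[10,0,0,0,1,0,0,0,0]),(0,10,[0,0,0,0,1,0,0,0,0])],[(1,10,[0,0,0,0,3,0,0,0,0])],[(2,10,[0,10,0,0,1,0,0,0,0]),(1,10,[0,0,0,0,1,0,0,0,0])],[(2,10,[0,10,0,10,3,0,0,0,0]),(2,10,[0,10,10,0,3,0,0,0,0]),(1,10,[0,0,0,0,3,0,0,0,0])],[(3,10,[0,10,0,0,3,0,0,0,0]),(1,10,[0,0,0,0,3,0,0,0,0])],[(0,10,[0,0,0,0,3,0,0,0,0])],[(2,10,[10,0,0,0,3,0,0,0,0]),(0,10,[0,0,0,0,3,0,0,0,0])]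
   ,[(2,1,[0,0,0,0,0,0,1,0,0]),(2,1,[0,0,0,0,0,0,0,1,0])],[(3,1,[0,0,0,0,0,0,1,0,0])],[],[(2,1,[0,0,0,0,0,0,0,1,0])],[(2,10,[10,0,0,0,3,0,0,0,0]),(0,10,[0,0,0,0,3,0,0,0,0])],[(2,10,[10,0,0,10,1,0,0,0,0]),(2,10,[10,0,10,0,1,0,0,0,0]),(0,10,[0,0,0,0,1,0,0,0,0])],[(3,10,[0,10,0,0,3,0,0,0,0]),(1,10,[0,0,0,0,3,0,0,0,0])],[(1,10,[0,0,0,0,1,0,0,0,0])],[(2,10,[0,10,0,0,3,0,0,0,0]),(1,10,[0,0,0,0,3,0,0,0,0])],[(2,10,[0,10,0,10,3,0,0,0,0]),(2,10,[0,10,10,0,3,0,0,0,0]),(1,10,[0,0,0,0,3,0,0,0,0])],[(3,10,[10,0,0,0,3,0,0,0,0]),(0,10,[0,0,0,0,3,0,0,0,0])],[(0,10,[0,0,0,0,3,0,0,0,0])]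
   ,[(2,1,[0,0,0,0,0,0,0,1,0])],[(2,1,[0,0,0,0,0,0,1,0,0]),(2,1,[0,0,0,0,0,0,0,1,0])],[(3,1,[0,0,0,0,0,0,1,0,0])],[],[(0,10,[0,0,0,0,3,0,0,0,0])],[(2,10,[10,0,0,0,1,0,0,0,0]),(0,10,[0,0,0,0,1,0,0,0,0])],[(2,10,[0,10,0,10,3,0,0,0,0]),(2,10,[0,10,10,0,3,0,0,0,0]),(1,10,[0,0,0,0,3,0,0,0,0])],[(3,10,[0,10,0,0,1,0,0,0,0]),(1,10,[0,0,0,0,1,0,0,0,0])],[(1,10,[0,0,0,0,3,0,0,0,0])],[(2,10,[0,10,0,0,3,0,0,0,0]),(1,10,[0,0,0,0,3,0,0,0,0])],[(2,10,[10,0,0,10,3,0,0,0,0]),(2,10,[10,0,10,0,3,0,0,0,0]),(0,10,[0,0,0,0,3,0,0,0,0])],[(3,10,[10,0,0,0,3,0,0,0,0]),(0,10,[0,0,0,0,3,0,0,0,0])]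
   ,[(0,2,[0,0,0,5,0,0,0,5,0]),(2,1,[0,0,0,0,0,0,0,1,0])],[(0,2,[0,0,0,5,0,0,5,0,0]),(2,1,[0,0,0,0,0,0,1,0,0]),(2,1,[0,0,0,0,0,0,0,1,0])],[(0,3,[0,5,0,0,0,0,5,0,0]),(3,1,[0,0,0,0,0,0,1,0,0])],[(0,3,[0,0,0,0,10,0,0,0,0])],[],[(0,1,[0,0,0,10,1,0,0,0,0]),(2,5,[0,0,0,15,2,0,0,0,0]),(0,10,[0,0,0,0,1,0,0,0,0])],[(0,13,[0,10,10,10,3,0,0,0,0]),(2,10,[9,10,10,0,3,0,0,0,0]),(2,10,[7,0,10,10,3,0,0,0,0]),(1,10,[0,0,0,0,3,0,0,0,0])],[(0,9,[0,10,10,0,1,0,0,0,0]),(3,10,[3,0,10,0,1,0,0,0,0]),(1,10,[0,0,0,0,1,0,0,0,0])],[(0,3,[0,0,10,0,3,0,0,0,0]),(1,10,[0,0,0,0,3,0,0,0,0])],[(0,7,[0,0,10,10,3,0,0,0,0]),(2,10,[3,0,10,0,3,0,0,0,0]),(1,10,[0,0,0,0,3,0,0,0,0])],[(0,7,[0,10,0,10,3,0,0,0,0]),(2,10,[3,10,0,0,3,0,0,0,0]),(2,10,[1,0,0,10,3,0,0,0,0]),(0,10,[0,0,0,0,3,0,0,0,0])],[(0,3,[0,10,0,0,3,0,0,0,0]),(3,5,[0,5,0,0,3,0,0,0,0]),(0,10,[0,0,0,0,3,0,0,0,0])]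
   ,[(0,1,[0,0,0,0,10,0,0,0,0])],[(0,2,[0,5,0,0,0,0,0,5,0]),(2,1,[0,0,0,0,0,0,0,1,0])],[(0,2,[0,5,0,0,0,0,5,0,0]),(2,1,[0,0,0,0,0,0,1,0,0]),(2,1,[0,0,0,0,0,0,0,1,0])],[(0,2,[0,0,0,5,0,0,5,0,0]),(3,1,[0,0,0,0,0,0,1,0,0])],[(0,3,[0,0,0,10,3,0,0,0,0]),(3,15,[0,0,0,5,6,0,0,0,0]),(0,10,[0,0,0,0,3,0,0,0,0])],[],[(0,7,[0,10,10,0,3,0,0,0,0]),(2,10,[3,0,10,0,3,0,0,0,0]),(1,10,[0,0,0,0,3,0,0,0,0])],[(0,11,[0,10,10,10,1,0,0,0,0]),(2,10,[7,0,10,10,1,0,0,0,0]),(2,10,[7,10,10,0,1,0,0,0,0]),(1,10,[0,0,0,0,1,0,0,0,0])],[(0,7,[0,0,10,10,3,0,0,0,0]),(3,10,[3,0,10,0,3,0,0,0,0]),(1,10,[0,0,0,0,3,0,0,0,0])],[(0,3,[0,0,10,0,3,0,0,0,0]),(1,10,[0,0,0,0,3,0,0,0,0])],[(0,3,[0,10,0,0,3,0,0,0,0]),(2,15,[0,5,0,0,6,0,0,0,0]),(0,10,[0,0,0,0,3,0,0,0,0])],[(0,7,[0,10,0,10,3,0,0,0,0]),(2,10,[3,0,0,10,3,0,0,0,0]),(2,10,[3,10,0,0,3,0,0,0,0]),(0,10,[0,0,0,0,3,0,0,0,0])]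
   ,[(0,3,[0,0,5,0,0,0,5,0,0]),(3,1,[0,0,0,0,0,0,1,0,0])],[(0,3,[0,0,0,0,0,10,0,0,0])],[(0,2,[0,0,0,5,0,0,0,5,0]),(2,1,[0,0,0,0,0,0,0,1,0])],[(0,2,[0,0,0,5,0,0,5,0,0]),(2,1,[0,0,0,0,0,0,1,0,0]),(2,1,[0,0,0,0,0,0,0,1,0])],[(0,13,[0,10,10,10,3,0,0,0,0]),(2,10,[9,10,10,0,3,0,0,0,0]),(2,10,[7,10,0,10,3,0,0,0,0]),(0,10,[0,0,0,0,3,0,0,0,0])],[(0,9,[0,10,10,0,1,0,0,0,0]),(3,10,[3,10,0,0,1,0,0,0,0]),(0,10,[0,0,0,0,1,0,0,0,0])],[],[(0,1,[0,0,0,10,1,0,0,0,0]),(2,5,[0,0,0,15,2,0,0,0,0]),(1,10,[0,0,0,0,1,0,0,0,0])],[(0,7,[0,0,10,10,3,0,0,0,0]),(2,10,[3,0,10,0,3,0,0,0,0]),(2,10,[1,0,0,10,3,0,0,0,0]),(1,10,[0,0,0,0,3,0,0,0,0])],[(0,3,[0,0,10,0,3,0,0,0,0]),(3,5,[0,0,5,0,3,0,0,0,0]),(1,10,[0,0,0,0,3,0,0,0,0])],[(0,3,[0,10,0,0,3,0,0,0,0]),(0,10,[0,0,0,0,3,0,0,0,0])],[(0,7,[0,10,0,10,3,0,0,0,0]),(2,10,[3,10,0,0,3,0,0,0,0]),(0,10,[0,0,0,0,3,0,0,0,0])]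
   ,[(0,2,[0,0,5,0,0,0,5,0,0]),(2,1,[0,0,0,0,0,0,1,0,0]),(2,1,[0,0,0,0,0,0,0,1,0])],[(0,2,[0,0,0,5,0,0,5,0,0]),(3,1,[0,0,0,0,0,0,1,0,0])],[(0,1,[0,0,0,0,0,10,0,0,0])],[(0,2,[0,0,5,0,0,0,0,5,0]),(2,1,[0,0,0,0,0,0,0,1,0])],[(0,7,[0,10,10,0,3,0,0,0,0]),(2,10,[3,10,0,0,3,0,0,0,0]),(0,10,[0,0,0,0,3,0,0,0,0])],[(0,11,[0,10,10,10,1,0,0,0,0]),(2,10,[7,10,0,10,1,0,0,0,0]),(2,10,[7,10,10,0,1,0,0,0,0]),(0,10,[0,0,0,0,1,0,0,0,0])],[(0,3,[0,0,0,10,3,0,0,0,0]),(3,15,[0,0,0,5,6,0,0,0,0]),(1,10,[0,0,0,0,3,0,0,0,0])],[],[(0,3,[0,0,10,0,3,0,0,0,0]),(2,15,[0,0,5,0,6,0,0,0,0]),(1,10,[0,0,0,0,3,0,0,0,0])],[(0,7,[0,0,10,10,3,0,0,0,0]),(2,10,[3,0,0,10,3,0,0,0,0]),(2,10,[3,0,10,0,3,0,0,0,0]),(1,10,[0,0,0,0,3,0,0,0,0])],[(0,7,[0,10,0,10,3,0,0,0,0]),(3,10,[3,10,0,0,3,0,0,0,0]),(0,10,[0,0,0,0,3,0,0,0,0])],[(0,3,[0,10,0,0,3,0,0,0,0]),(0,10,[0,0,0,0,3,0,0,0,0])]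
   ,[(0,3,[0,0,0,5,0,0,0,5,0]),(2,1,[0,0,0,0,0,0,0,1,0])],[(0,3,[0,0,0,5,0,0,5,0,0]),(2,1,[0,0,0,0,0,0,1,0,0]),(2,1,[0,0,0,0,0,0,0,1,0])],[(0,2,[0,5,0,0,0,0,5,0,0]),(3,1,[0,0,0,0,0,0,1,0,0])],[(0,3,[0,0,0,0,0,10,0,0,0])],[(0,3,[0,0,10,0,3,0,0,0,0]),(0,10,[0,0,0,0,3,0,0,0,0])],[(0,9,[0,0,10,10,1,0,0,0,0]),(2,10,[3,0,10,0,1,0,0,0,0]),(0,10,[0,0,0,0,1,0,0,0,0])],[(0,7,[0,10,0,10,3,0,0,0,0]),(2,10,[1,10,0,0,3,0,0,0,0]),(2,10,[3,0,0,10,3,0,0,0,0]),(1,10,[0,0,0,0,3,0,0,0,0])],[(0,1,[0,10,0,0,1,0,0,0,0]),(3,5,[0,15,0,0,2,0,0,0,0]),(1,10,[0,0,0,0,1,0,0,0,0])],[],[(0,3,[0,0,0,10,3,0,0,0,0]),(2,5,[0,0,0,5,3,0,0,0,0]),(1,10,[0,0,0,0,3,0,0,0,0])],[(0,13,[0,10,10,10,3,0,0,0,0]),(2,10,[7,10,10,0,3,0,0,0,0]),(2,10,[9,0,10,10,3,0,0,0,0]),(0,10,[0,0,0,0,3,0,0,0,0])],[(0,7,[0,10,10,0,3,0,0,0,0]),(3,10,[3,0,10,0,3,0,0,0,0]),(0,10,[0,0,0,0,3,0,0,0,0])]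
   ,[(0,3,[0,0,0,0,0,10,0,0,0])],[(0,3,[0,5,0,0,0,0,0,5,0]),(2,1,[0,0,0,0,0,0,0,1,0])],[(0,3,[0,5,0,0,0,0,5,0,0]),(2,1,[0,0,0,0,0,0,1,0,0]),(2,1,[0,0,0,0,0,0,0,1,0])],[(0,3,[0,0,0,5,0,0,5,0,0]),(3,1,[0,0,0,0,0,0,1,0,0])],[(0,7,[0,0,10,10,3,0,0,0,0]),(3,10,[1,0,10,0,3,0,0,0,0]),(0,10,[0,0,0,0,3,0,0,0,0])],[(0,1,[0,0,10,0,1,0,0,0,0]),(0,10,[0,0,0,0,1,0,0,0,0])],[(0,3,[0,10,0,0,3,0,0,0,0]),(2,5,[0,5,0,0,3,0,0,0,0]),(1,10,[0,0,0,0,3,0,0,0,0])],[(0,9,[0,10,0,10,1,0,0,0,0]),(2,10,[3,0,0,10,1,0,0,0,0]),(2,10,[3,10,0,0,1,0,0,0,0]),(1,10,[0,0,0,0,1,0,0,0,0])],[(0,3,[0,0,0,10,3,0,0,0,0]),(3,5,[0,0,0,5,3,0,0,0,0]),(1,10,[0,0,0,0,3,0,0,0,0])],[],[(0,7,[0,10,10,0,3,0,0,0,0]),(2,10,[1,0,10,0,3,0,0,0,0]),(0,10,[0,0,0,0,3,0,0,0,0])],[(0,13,[0,10,10,10,3,0,0,0,0]),(2,10,[7,0,10,10,3,0,0,0,0]),(2,10,[7,10,10,0,3,0,0,0,0]),(0,10,[0,0,0,0,3,0,0,0,0])]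
   ,[(0,2,[0,0,5,0,0,0,5,0,0]),(3,1,[0,0,0,0,0,0,1,0,0])],[(0,3,[0,0,0,0,10,0,0,0,0])],[(0,3,[0,0,0,5,0,0,0,5,0]),(2,1,[0,0,0,0,0,0,0,1,0])],[(0,3,[0,0,0,5,0,0,5,0,0]),(2,1,[0,0,0,0,0,0,1,0,0]),(2,1,[0,0,0,0,0,0,0,1,0])],[(0,7,[0,0,10,10,3,0,0,0,0]),(2,10,[1,0,10,0,3,0,0,0,0]),(2,10,[3,0,0,10,3,0,0,0,0]),(0,10,[0,0,0,0,3,0,0,0,0])],[(0,1,[0,0,10,0,1,0,0,0,0]),(3,5,[0,0,15,0,2,0,0,0,0]),(0,10,[0,0,0,0,1,0,0,0,0])],[(0,3,[0,10,0,0,3,0,0,0,0]),(1,10,[0,0,0,0,3,0,0,0,0])],[(0,9,[0,10,0,10,1,0,0,0,0]),(2,10,[3,10,0,0,1,0,0,0,0]),(1,10,[0,0,0,0,1,0,0,0,0])],[(0,13,[0,10,10,10,3,0,0,0,0]),(2,10,[7,10,10,0,3,0,0,0,0]),(2,10,[9,10,0,10,3,0,0,0,0]),(1,10,[0,0,0,0,3,0,0,0,0])],[(0,7,[0,10,10,0,3,0,0,0,0]),(3,10,[3,10,0,0,3,0,0,0,0]),(1,10,[0,0,0,0,3,0,0,0,0])],[],[(0,3,[0,0,0,10,3,0,0,0,0]),(2,5,[0,0,0,5,3,0,0,0,0]),(0,10,[0,0,0,0,3,0,0,0,0])]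
   ,[(0,3,[0,0,5,0,0,0,5,0,0]),(2,1,[0,0,0,0,0,0,1,0,0]),(2,1,[0,0,0,0,0,0,0,1,0])],[(0,3,[0,0,0,5,0,0,5,0,0]),(3,1,[0,0,0,0,0,0,1,0,0])],[(0,3,[0,0,0,0,10,0,0,0,0])],[(0,3,[0,0,5,0,0,0,0,5,0]),(2,1,[0,0,0,0,0,0,0,1,0])],[(0,3,[0,0,10,0,3,0,0,0,0]),(2,5,[0,0,5,0,3,0,0,0,0]),(0,10,[0,0,0,0,3,0,0,0,0])],[(0,9,[0,0,10,10,1,0,0,0,0]),(2,10,[3,0,0,10,1,0,0,0,0]),(2,10,[3,0,10,0,1,0,0,0,0]),(0,10,[0,0,0,0,1,0,0,0,0])],[(0,7,[0,10,0,10,3,0,0,0,0]),(3,10,[1,10,0,0,3,0,0,0,0]),(1,10,[0,0,0,0,3,0,0,0,0])],[(0,1,[0,10,0,0,1,0,0,0,0]),(1,10,[0,0,0,0,1,0,0,0,0])],[(0,7,[0,10,10,0,3,0,0,0,0]),(2,10,[1,10,0,0,3,0,0,0,0]),(1,10,[0,0,0,0,3,0,0,0,0])],[(0,13,[0,10,10,10,3,0,0,0,0]),(2,10,[7,10,0,10,3,0,0,0,0]),(2,10,[7,10,10,0,3,0,0,0,0]),(1,10,[0,0,0,0,3,0,0,0,0])],[(0,3,[0,0,0,10,3,0,0,0,0]),(3,5,[0,0,0,5,3,0,0,0,0]),(0,10,[0,0,0,0,3,0,0,0,0])],[]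
   ]

def ivl : List (List (List (ℕ × List ℕ))) :=
  [[[(6,[2,0,0,1,0]),(6,[0,2,2,1,0]),(6,[1,1,2,0,0]),(6,[1,1,0,2,0]),(6,[2,0,1,0,0]),(6,[0,2,1,2,0]),(6,[3,1,4,4,0]),(6,[1,3,0,0,0]),(6,[4,0,3,4,0]),(6,[0,4,1,0,0]),(6,[4,0,4,3,0]),(6,[0,4,0,1,0])],[(6,[2,0,1,2,0]),(6,[0,2,1,0,0]),(6,[1,1,0,0,0]),(6,[1,1,2,2,0]),(6,[2,0,0,1,0]),(6,[0,2,2,1,0]),(6,[3,1,4,0,0]),(6,[1,3,0,4,0]),(6,[4,0,4,1,0]),(6,[0,4,0,3,0]),(6,[4,0,3,0,0]),(6,[0,4,1,4,0])],[(6,[2,0,2,1,0]),(6,[0,2,0,1,0]),(6,[1,1,0,2,0]),(6,[1,1,2,0,0]),(6,[2,0,1,2,0]),(6,[0,2,1,0,0]),(6,[3,1,0,0,0]),(6,[1,3,4,4,0]),(6,[4,0,1,0,0]),(6,[0,4,3,4,0]),(6,[4,0,0,1,0]),(6,[0,4,4,3,0])],[(6,[2,0,1,0,0]),(6,[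0,2,1,2,0]),(6,[1,1,2,2,0]),(6,[1,1,0,0,0]),(6,[2,0,2,1,0]),(6,[0,2,0,1,0]),(6,[3,1,0,4,0]),(6,[1,3,4,0,0]),(6,[4,0,0,3,0]),(6,[0,4,4,1,0]),(6,[4,0,1,4,0]),(6,[0,4,3,0,0])],[(6,[0,0,1,0,0]),(6,[2,2,1,2,0]),(6,[1,2,0,1,0]),(6,[1,0,2,1,0]),(6,[0,1,0,0,0]),(6,[2,1,2,2,0]),(6,[4,4,4,1,0]),(2,[0,0,0,1,0]),(6,[3,3,4,0,0]),(6,[1,1,0,4,0]),(6,[3,4,3,0,0]),(6,[1,0,1,4,0])],[(6,[1,0,1,2,0]),(6,[1,2,1,0,0]),(6,[1,2,0,1,0]),(6,[1,0,2,1,0]),(6,[1,1,0,2,0]),(6,[1,1,2,0,0]),(6,[4,4,4,3,0]),(6,[0,0,0,1,0]),(6,[4,3,4,4,0]),(6,[0,1,0,0,0]),(6,[4,4,3,4,0]),(6,[0,0,1,0,0])],[(6,[2,1,2,2,0]),(6,[0,1,0,0,0]),(6,[1,2,0,1,0]),(6,[1,0,2,1,0]),(6,[2,2,1,2,0]),(6,[0,0,1,0,0]),(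2,[0,0,0,1,0]),(6,[4,4,4,1,0]),(6,[1,0,1,4,0]),(6,[3,4,3,0,0]),(6,[1,1,0,4,0]),(6,[3,3,4,0,0])],[(6,[1,1,2,0,0]),(6,[1,1,0,2,0]),(6,[1,2,0,1,0]),(6,[1,0,2,1,0]),(6,[1,2,1,0,0]),(6,[1,0,1,2,0]),(6,[0,0,0,1,0]),(6,[4,4,4,3,0]),(6,[0,0,1,0,0]),(6,[4,4,3,4,0]),(6,[0,1,0,0,0]),(6,[4,3,4,4,0])],[(6,[0,0,1,0,0]),(6,[2,2,1,2,0]),(6,[2,2,2,1,0]),(6,[0,0,0,1,0]),(6,[1,1,2,0,0]),(6,[1,1,0,2,0]),(6,[1,4,0,1,0]),(6,[3,0,4,3,0]),(2,[0,1,0,0,0]),(6,[4,1,4,4,0]),(6,[1,4,1,0,0]),(6,[3,0,3,4,0])],[(6,[1,0,1,2,0]),(6,[1,2,1,0,0]),(6,[2,2,2,1,0]),(6,[0,0,0,1,0]),(6,[2,1,2,2,0]),(6,[0,1,0,0,0]),(6,[3,4,0,3,0]),(6,[1,0,4,1,0]),(6,[3,3,0,4,0]),(6,[1,1,4,0,0]),(6,[4,4,1,4,0]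),(2,[0,0,1,0,0])],[(6,[2,1,2,2,0]),(6,[0,1,0,0,0]),(6,[0,0,0,1,0]),(6,[2,2,2,1,0]),(6,[1,0,1,2,0]),(6,[1,2,1,0,0]),(6,[3,4,0,3,0]),(6,[1,0,4,1,0]),(6,[4,4,1,4,0]),(2,[0,0,1,0,0]),(6,[3,3,0,4,0]),(6,[1,1,4,0,0])],[(6,[1,1,2,0,0]),(6,[1,1,0,2,0]),(6,[0,0,0,1,0]),(6,[2,2,2,1,0]),(6,[0,0,1,0,0]),(6,[2,2,1,2,0]),(6,[1,4,0,1,0]),(6,[3,0,4,3,0]),(6,[1,4,1,0,0]),(6,[3,0,3,4,0]),(2,[0,1,0,0,0]),(6,[4,1,4,4,0])]]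
   ,[[(6,[0,2,1,2,0]),(6,[2,0,1,0,0]),(6,[2,0,0,1,0]),(6,[0,2,2,1,0]),(6,[1,1,0,2,0]),(6,[1,1,2,0,0]),(6,[4,0,4,3,0]),(6,[0,4,0,1,0]),(6,[3,1,4,4,0]),(6,[1,3,0,0,0]),(6,[4,0,3,4,0]),(6,[0,4,1,0,0])],[(6,[0,2,2,1,0]),(6,[2,0,0,1,0]),(6,[2,0,1,2,0]),(6,[0,2,1,0,0]),(6,[1,1,2,2,0]),(6,[1,1,0,0,0]),(6,[4,0,3,0,0]),(6,[0,4,1,4,0]),(6,[3,1,4,0,0]),(6,[1,3,0,4,0]),(6,[4,0,4,1,0]),(6,[0,4,0,3,0])],[(6,[0,2,1,0,0]),(6,[2,0,1,2,0]),(6,[2,0,2,1,0]),(6,[0,2,0,1,0]),(6,[1,1,2,0,0]),(6,[1,1,0,2,0]),(6,[4,0,0,1,0]),(6,[0,4,4,3,0]),(6,[3,1,0,0,0]),(6,[1,3,4,4,0]),(6,[4,0,1,0,0]),(6,[0,4,3,4,0])],[(6,[0,2,0,1,0]),(6,[2,0,2,1,0]),(6,[2,0,1,0,0]),(6,[0,2,1,2,0]),(6,[1,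1,0,0,0]),(6,[1,1,2,2,0]),(6,[4,0,1,4,0]),(6,[0,4,3,0,0]),(6,[3,1,0,4,0]),(6,[1,3,4,0,0]),(6,[4,0,0,3,0]),(6,[0,4,4,1,0])],[(6,[0,0,1,0,0]),(6,[2,2,1,2,0]),(6,[1,2,0,1,0]),(6,[1,0,2,1,0]),(6,[0,1,0,0,0]),(6,[2,1,2,2,0]),(6,[4,4,4,1,0]),(2,[0,0,0,1,0]),(6,[3,3,4,0,0]),(6,[1,1,0,4,0]),(6,[3,4,3,0,0]),(6,[1,0,1,4,0])],[(6,[1,0,1,2,0]),(6,[1,2,1,0,0]),(6,[1,2,0,1,0]),(6,[1,0,2,1,0]),(6,[1,1,0,2,0]),(6,[1,1,2,0,0]),(6,[4,4,4,3,0]),(6,[0,0,0,1,0]),(6,[4,3,4,4,0]),(6,[0,1,0,0,0]),(6,[4,4,3,4,0]),(6,[0,0,1,0,0])],[(6,[2,1,2,2,0]),(6,[0,1,0,0,0]),(6,[1,2,0,1,0]),(6,[1,0,2,1,0]),(6,[2,2,1,2,0]),(6,[0,0,1,0,0]),(2,[0,0,0,1,0]),(6,[4,4,4,1,0]),(6,[1,0,1,4,0]),(6,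[3,4,3,0,0]),(6,[1,1,0,4,0]),(6,[3,3,4,0,0])],[(6,[1,1,2,0,0]),(6,[1,1,0,2,0]),(6,[1,2,0,1,0]),(6,[1,0,2,1,0]),(6,[1,2,1,0,0]),(6,[1,0,1,2,0]),(6,[0,0,0,1,0]),(6,[4,4,4,3,0]),(6,[0,0,1,0,0]),(6,[4,4,3,4,0]),(6,[0,1,0,0,0]),(6,[4,3,4,4,0])],[(6,[0,0,1,0,0]),(6,[2,2,1,2,0]),(6,[2,2,2,1,0]),(6,[0,0,0,1,0]),(6,[1,1,2,0,0]),(6,[1,1,0,2,0]),(6,[1,4,0,1,0]),(6,[3,0,4,3,0]),(2,[0,1,0,0,0]),(6,[4,1,4,4,0]),(6,[1,4,1,0,0]),(6,[3,0,3,4,0])],[(6,[1,0,1,2,0]),(6,[1,2,1,0,0]),(6,[2,2,2,1,0]),(6,[0,0,0,1,0]),(6,[2,1,2,2,0]),(6,[0,1,0,0,0]),(6,[3,4,0,3,0]),(6,[1,0,4,1,0]),(6,[3,3,0,4,0]),(6,[1,1,4,0,0]),(6,[4,4,1,4,0]),(2,[0,0,1,0,0])],[(6,[2,1,2,2,0]),(6,[0,1,0,0,0]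),(6,[0,0,0,1,0]),(6,[2,2,2,1,0]),(6,[1,0,1,2,0]),(6,[1,2,1,0,0]),(6,[3,4,0,3,0]),(6,[1,0,4,1,0]),(6,[4,4,1,4,0]),(2,[0,0,1,0,0]),(6,[3,3,0,4,0]),(6,[1,1,4,0,0])],[(6,[1,1,2,0,0]),(6,[1,1,0,2,0]),(6,[0,0,0,1,0]),(6,[2,2,2,1,0]),(6,[0,0,1,0,0]),(6,[2,2,1,2,0]),(6,[1,4,0,1,0]),(6,[3,0,4,3,0]),(6,[1,4,1,0,0]),(6,[3,0,3,4,0]),(2,[0,1,0,0,0]),(6,[4,1,4,4,0])]]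
   ,[[(6,[1,1,0,2,0]),(6,[1,1,2,0,0]),(6,[2,0,2,1,0]),(6,[0,2,0,1,0]),(6,[2,0,1,2,0]),(6,[0,2,1,0,0]),(6,[0,4,4,3,0]),(6,[4,0,0,1,0]),(6,[0,4,3,4,0]),(6,[4,0,1,0,0]),(6,[1,3,4,4,0]),(6,[3,1,0,0,0])],[(6,[1,1,2,2,0]),(6,[1,1,0,0,0]),(6,[2,0,1,0,0]),(6,[0,2,1,2,0]),(6,[2,0,2,1,0]),(6,[0,2,0,1,0]),(6,[0,4,3,0,0]),(6,[4,0,1,4,0]),(6,[0,4,4,1,0]),(6,[4,0,0,3,0]),(6,[1,3,4,0,0]),(6,[3,1,0,4,0])],[(6,[1,1,2,0,0]),(6,[1,1,0,2,0]),(6,[2,0,0,1,0]),(6,[0,2,2,1,0]),(6,[2,0,1,0,0]),(6,[0,2,1,2,0]),(6,[0,4,0,1,0]),(6,[4,0,4,3,0]),(6,[0,4,1,0,0]),(6,[4,0,3,4,0]),(6,[1,3,0,0,0]),(6,[3,1,4,4,0])],[(6,[1,1,0,0,0]),(6,[1,1,2,2,0]),(6,[2,0,1,2,0]),(6,[0,2,1,0,0]),(6,[2,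0,0,1,0]),(6,[0,2,2,1,0]),(6,[0,4,1,4,0]),(6,[4,0,3,0,0]),(6,[0,4,0,3,0]),(6,[4,0,4,1,0]),(6,[1,3,0,4,0]),(6,[3,1,4,0,0])],[(6,[0,0,1,0,0]),(6,[2,2,1,2,0]),(6,[1,2,0,1,0]),(6,[1,0,2,1,0]),(6,[0,1,0,0,0]),(6,[2,1,2,2,0]),(6,[4,4,4,1,0]),(2,[0,0,0,1,0]),(6,[3,3,4,0,0]),(6,[1,1,0,4,0]),(6,[3,4,3,0,0]),(6,[1,0,1,4,0])],[(6,[1,0,1,2,0]),(6,[1,2,1,0,0]),(6,[1,2,0,1,0]),(6,[1,0,2,1,0]),(6,[1,1,0,2,0]),(6,[1,1,2,0,0]),(6,[4,4,4,3,0]),(6,[0,0,0,1,0]),(6,[4,3,4,4,0]),(6,[0,1,0,0,0]),(6,[4,4,3,4,0]),(6,[0,0,1,0,0])],[(6,[2,1,2,2,0]),(6,[0,1,0,0,0]),(6,[1,2,0,1,0]),(6,[1,0,2,1,0]),(6,[2,2,1,2,0]),(6,[0,0,1,0,0]),(2,[0,0,0,1,0]),(6,[4,4,4,1,0]),(6,[1,0,1,4,0]),(6,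[3,4,3,0,0]),(6,[1,1,0,4,0]),(6,[3,3,4,0,0])],[(6,[1,1,2,0,0]),(6,[1,1,0,2,0]),(6,[1,2,0,1,0]),(6,[1,0,2,1,0]),(6,[1,2,1,0,0]),(6,[1,0,1,2,0]),(6,[0,0,0,1,0]),(6,[4,4,4,3,0]),(6,[0,0,1,0,0]),(6,[4,4,3,4,0]),(6,[0,1,0,0,0]),(6,[4,3,4,4,0])],[(6,[0,0,1,0,0]),(6,[2,2,1,2,0]),(6,[2,2,2,1,0]),(6,[0,0,0,1,0]),(6,[1,1,2,0,0]),(6,[1,1,0,2,0]),(6,[1,4,0,1,0]),(6,[3,0,4,3,0]),(2,[0,1,0,0,0]),(6,[4,1,4,4,0]),(6,[1,4,1,0,0]),(6,[3,0,3,4,0])],[(6,[1,0,1,2,0]),(6,[1,2,1,0,0]),(6,[2,2,2,1,0]),(6,[0,0,0,1,0]),(6,[2,1,2,2,0]),(6,[0,1,0,0,0]),(6,[3,4,0,3,0]),(6,[1,0,4,1,0]),(6,[3,3,0,4,0]),(6,[1,1,4,0,0]),(6,[4,4,1,4,0]),(2,[0,0,1,0,0])],[(6,[2,1,2,2,0]),(6,[0,1,0,0,0]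),(6,[0,0,0,1,0]),(6,[2,2,2,1,0]),(6,[1,0,1,2,0]),(6,[1,2,1,0,0]),(6,[3,4,0,3,0]),(6,[1,0,4,1,0]),(6,[4,4,1,4,0]),(2,[0,0,1,0,0]),(6,[3,3,0,4,0]),(6,[1,1,4,0,0])],[(6,[1,1,2,0,0]),(6,[1,1,0,2,0]),(6,[0,0,0,1,0]),(6,[2,2,2,1,0]),(6,[0,0,1,0,0]),(6,[2,2,1,2,0]),(6,[1,4,0,1,0]),(6,[3,0,4,3,0]),(6,[1,4,1,0,0]),(6,[3,0,3,4,0]),(2,[0,1,0,0,0]),(6,[4,1,4,4,0])]]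
   ]

def fll : List (List (ℕ × List ℕ)) :=
  [[(0,[0,1,3,2]),(3,[0,1,3,2]),(2,[0,1,3,2]),(1,[0,1,3,2]),(10,[0,3,1,2]),(5,[0,3,2,1]),(8,[0,2,3,1]),(7,[0,1,3,2]),(6,[0,3,1,2]),(9,[0,3,2,1]),(4,[0,2,3,1]),(11,[0,1,3,2])]
   ,[(0,[0,1,3,2]),(3,[0,1,3,2]),(2,[0,1,3,2]),(1,[0,1,3,2]),(4,[0,2,1,3]),(5,[0,2,1,3]),(6,[0,2,1,3]),(7,[0,2,1,3]),(11,[0,1,2,3]),(10,[0,1,2,3]),(9,[0,1,2,3]),(8,[0,1,2,3])]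
   ,[(0,[0,1,3,2]),(3,[0,1,3,2]),(2,[0,1,3,2]),(1,[0,1,3,2]),(4,[0,2,1,3]),(5,[0,2,1,3]),(6,[0,2,1,3]),(7,[0,2,1,3]),(11,[0,1,2,3]),(10,[0,1,2,3]),(9,[0,1,2,3]),(8,[0,1,2,3])]
   ,[(0,[1,0,2,3]),(1,[1,0,2,3]),(2,[1,0,2,3]),(3,[1,0,2,3]),(9,[0,1,3,2]),(5,[0,1,3,2]),(11,[0,3,2,1]),(7,[0,3,2,1]),(8,[0,1,3,2]),(4,[0,1,3,2]),(10,[0,3,2,1]),(6,[0,3,2,1])]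
   ,[(0,[0,1,3,2]),(3,[0,1,3,2]),(2,[0,1,3,2]),(1,[0,1,3,2]),(10,[0,3,1,2]),(5,[0,3,2,1]),(8,[0,2,3,1]),(7,[0,1,3,2]),(6,[0,3,1,2]),(9,[0,3,2,1]),(4,[0,2,3,1]),(11,[0,1,3,2])]
   ,[(0,[0,1,3,2]),(3,[0,1,3,2]),(2,[0,1,3,2]),(1,[0,1,3,2]),(10,[0,3,1,2]),(5,[0,3,2,1]),(8,[0,2,3,1]),(7,[0,1,3,2]),(6,[0,3,1,2]),(9,[0,3,2,1]),(4,[0,2,3,1]),(11,[0,1,3,2])]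
   ,[(0,[0,1,3,2]),(3,[0,1,3,2]),(2,[0,1,3,2]),(1,[0,1,3,2]),(10,[0,3,1,2]),(5,[0,3,2,1]),(8,[0,2,3,1]),(7,[0,1,3,2]),(6,[0,3,1,2]),(9,[0,3,2,1]),(4,[0,2,3,1]),(11,[0,1,3,2])]
   ,[(0,[1,0,2,3]),(1,[1,0,2,3]),(2,[1,0,2,3]),(3,[1,0,2,3]),(9,[0,1,3,2]),(5,[0,1,3,2]),(11,[0,3,2,1]),(7,[0,3,2,1]),(8,[0,1,3,2]),(4,[0,1,3,2]),(10,[0,3,2,1]),(6,[0,3,2,1])]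
   ,[(0,[0,1,3,2]),(3,[0,1,3,2]),(2,[0,1,3,2]),(1,[0,1,3,2]),(4,[0,2,1,3]),(5,[0,2,1,3]),(6,[0,2,1,3]),(7,[0,2,1,3]),(11,[0,1,2,3]),(10,[0,1,2,3]),(9,[0,1,2,3]),(8,[0,1,2,3])]
   ,[(0,[0,1,3,2]),(3,[0,1,3,2]),(2,[0,1,3,2]),(1,[0,1,3,2]),(4,[0,2,1,3]),(5,[0,2,1,3]),(6,[0,2,1,3]),(7,[0,2,1,3]),(11,[0,1,2,3]),(10,[0,1,2,3]),(9,[0,1,2,3]),(8,[0,1,2,3])]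
   ,[(0,[0,1,3,2]),(3,[0,1,3,2]),(2,[0,1,3,2]),(1,[0,1,3,2]),(10,[0,3,1,2]),(5,[0,3,2,1]),(8,[0,2,3,1]),(7,[0,1,3,2]),(6,[0,3,1,2]),(9,[0,3,2,1]),(4,[0,2,3,1]),(11,[0,1,3,2])]
   ,[(0,[0,1,3,2]),(3,[0,1,3,2]),(2,[0,1,3,2]),(1,[0,1,3,2]),(10,[0,3,1,2]),(5,[0,3,2,1]),(8,[0,2,3,1]),(7,[0,1,3,2]),(6,[0,3,1,2]),(9,[0,3,2,1]),(4,[0,2,3,1]),(11,[0,1,3,2])]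
   ,[(0,[0,1,3,2]),(3,[0,1,3,2]),(2,[0,1,3,2]),(1,[0,1,3,2]),(4,[0,2,1,3]),(5,[0,2,1,3]),(6,[0,2,1,3]),(7,[0,2,1,3]),(11,[0,1,2,3]),(10,[0,1,2,3]),(9,[0,1,2,3]),(8,[0,1,2,3])]
   ,[(0,[0,1,3,2]),(3,[0,1,3,2]),(2,[0,1,3,2]),(1,[0,1,3,2]),(4,[0,2,1,3]),(5,[0,2,1,3]),(6,[0,2,1,3]),(7,[0,2,1,3]),(11,[0,1,2,3]),(10,[0,1,2,3]),(9,[0,1,2,3]),(8,[0,1,2,3])]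
   ,[(0,[1,0,2,3]),(1,[1,0,2,3]),(2,[1,0,2,3]),(3,[1,0,2,3]),(9,[0,1,3,2]),(5,[0,1,3,2]),(11,[0,3,2,1]),(7,[0,3,2,1]),(8,[0,1,3,2]),(4,[0,1,3,2]),(10,[0,3,2,1]),(6,[0,3,2,1])]
   ,[(0,[1,0,2,3]),(1,[1,0,2,3]),(2,[1,0,2,3]),(3,[1,0,2,3]),(9,[0,1,3,2]),(5,[0,1,3,2]),(11,[0,3,2,1]),(7,[0,3,2,1]),(8,[0,1,3,2]),(4,[0,1,3,2]),(10,[0,3,2,1]),(6,[0,3,2,1])]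
   ,[(0,[1,0,2,3]),(1,[1,0,2,3]),(2,[1,0,2,3]),(3,[1,0,2,3]),(9,[0,1,3,2]),(5,[0,1,3,2]),(11,[0,3,2,1]),(7,[0,3,2,1]),(8,[0,1,3,2]),(4,[0,1,3,2]),(10,[0,3,2,1]),(6,[0,3,2,1])]
   ,[(0,[0,1,3,2]),(3,[0,1,3,2]),(2,[0,1,3,2]),(1,[0,1,3,2]),(4,[0,2,1,3]),(5,[0,2,1,3]),(6,[0,2,1,3]),(7,[0,2,1,3]),(11,[0,1,2,3]),(10,[0,1,2,3]),(9,[0,1,2,3]),(8,[0,1,2,3])]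
   ,[(0,[0,1,3,2]),(3,[0,1,3,2]),(2,[0,1,3,2]),(1,[0,1,3,2]),(4,[0,2,1,3]),(5,[0,2,1,3]),(6,[0,2,1,3]),(7,[0,2,1,3]),(11,[0,1,2,3]),(10,[0,1,2,3]),(9,[0,1,2,3]),(8,[0,1,2,3])]
   ,[(0,[0,1,3,2]),(3,[0,1,3,2]),(2,[0,1,3,2]),(1,[0,1,3,2]),(10,[0,3,1,2]),(5,[0,3,2,1]),(8,[0,2,3,1]),(7,[0,1,3,2]),(6,[0,3,1,2]),(9,[0,3,2,1]),(4,[0,2,3,1]),(11,[0,1,3,2])]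
   ,[(0,[0,1,3,2]),(3,[0,1,3,2]),(2,[0,1,3,2]),(1,[0,1,3,2]),(10,[0,3,1,2]),(5,[0,3,2,1]),(8,[0,2,3,1]),(7,[0,1,3,2]),(6,[0,3,1,2]),(9,[0,3,2,1]),(4,[0,2,3,1]),(11,[0,1,3,2])]
   ,[(0,[1,0,2,3]),(1,[1,0,2,3]),(2,[1,0,2,3]),(3,[1,0,2,3]),(9,[0,1,3,2]),(5,[0,1,3,2]),(11,[0,3,2,1]),(7,[0,3,2,1]),(8,[0,1,3,2]),(4,[0,1,3,2]),(10,[0,3,2,1]),(6,[0,3,2,1])]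
   ,[(0,[0,1,3,2]),(3,[0,1,3,2]),(2,[0,1,3,2]),(1,[0,1,3,2]),(10,[0,3,1,2]),(5,[0,3,2,1]),(8,[0,2,3,1]),(7,[0,1,3,2]),(6,[0,3,1,2]),(9,[0,3,2,1]),(4,[0,2,3,1]),(11,[0,1,3,2])]
   ,[(0,[0,1,3,2]),(3,[0,1,3,2]),(2,[0,1,3,2]),(1,[0,1,3,2]),(10,[0,3,1,2]),(5,[0,3,2,1]),(8,[0,2,3,1]),(7,[0,1,3,2]),(6,[0,3,1,2]),(9,[0,3,2,1]),(4,[0,2,3,1]),(11,[0,1,3,2])]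
   ,[(0,[0,1,3,2]),(3,[0,1,3,2]),(2,[0,1,3,2]),(1,[0,1,3,2]),(4,[0,2,1,3]),(5,[0,2,1,3]),(6,[0,2,1,3]),(7,[0,2,1,3]),(11,[0,1,2,3]),(10,[0,1,2,3]),(9,[0,1,2,3]),(8,[0,1,2,3])]
   ,[(0,[0,1,3,2]),(3,[0,1,3,2]),(2,[0,1,3,2]),(1,[0,1,3,2]),(10,[0,3,1,2]),(5,[0,3,2,1]),(8,[0,2,3,1]),(7,[0,1,3,2]),(6,[0,3,1,2]),(9,[0,3,2,1]),(4,[0,2,3,1]),(11,[0,1,3,2])]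
   ,[(0,[0,1,3,2]),(3,[0,1,3,2]),(2,[0,1,3,2]),(1,[0,1,3,2]),(10,[0,3,1,2]),(5,[0,3,2,1]),(8,[0,2,3,1]),(7,[0,1,3,2]),(6,[0,3,1,2]),(9,[0,3,2,1]),(4,[0,2,3,1]),(11,[0,1,3,2])]
   ,[(0,[0,1,3,2]),(3,[0,1,3,2]),(2,[0,1,3,2]),(1,[0,1,3,2]),(4,[0,2,1,3]),(5,[0,2,1,3]),(6,[0,2,1,3]),(7,[0,2,1,3]),(11,[0,1,2,3]),(10,[0,1,2,3]),(9,[0,1,2,3]),(8,[0,1,2,3])]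
   ,[(0,[1,0,2,3]),(1,[1,0,2,3]),(2,[1,0,2,3]),(3,[1,0,2,3]),(9,[0,1,3,2]),(5,[0,1,3,2]),(11,[0,3,2,1]),(7,[0,3,2,1]),(8,[0,1,3,2]),(4,[0,1,3,2]),(10,[0,3,2,1]),(6,[0,3,2,1])]
   ,[(0,[1,0,2,3]),(1,[1,0,2,3]),(2,[1,0,2,3]),(3,[1,0,2,3]),(9,[0,1,3,2]),(5,[0,1,3,2]),(11,[0,3,2,1]),(7,[0,3,2,1]),(8,[0,1,3,2]),(4,[0,1,3,2]),(10,[0,3,2,1]),(6,[0,3,2,1])]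
   ,[(0,[0,1,3,2]),(3,[0,1,3,2]),(2,[0,1,3,2]),(1,[0,1,3,2]),(10,[0,3,1,2]),(5,[0,3,2,1]),(8,[0,2,3,1]),(7,[0,1,3,2]),(6,[0,3,1,2]),(9,[0,3,2,1]),(4,[0,2,3,1]),(11,[0,1,3,2])]
   ,[(0,[0,1,3,2]),(3,[0,1,3,2]),(2,[0,1,3,2]),(1,[0,1,3,2]),(10,[0,3,1,2]),(5,[0,3,2,1]),(8,[0,2,3,1]),(7,[0,1,3,2]),(6,[0,3,1,2]),(9,[0,3,2,1]),(4,[0,2,3,1]),(11,[0,1,3,2])]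
   ,[(0,[0,1,3,2]),(3,[0,1,3,2]),(2,[0,1,3,2]),(1,[0,1,3,2]),(10,[0,3,1,2]),(5,[0,3,2,1]),(8,[0,2,3,1]),(7,[0,1,3,2]),(6,[0,3,1,2]),(9,[0,3,2,1]),(4,[0,2,3,1]),(11,[0,1,3,2])]
   ,[(0,[1,0,2,3]),(1,[1,0,2,3]),(2,[1,0,2,3]),(3,[1,0,2,3]),(9,[0,1,3,2]),(5,[0,1,3,2]),(11,[0,3,2,1]),(7,[0,3,2,1]),(8,[0,1,3,2]),(4,[0,1,3,2]),(10,[0,3,2,1]),(6,[0,3,2,1])]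
   ,[(0,[1,0,2,3]),(1,[1,0,2,3]),(2,[1,0,2,3]),(3,[1,0,2,3]),(9,[0,1,3,2]),(5,[0,1,3,2]),(11,[0,3,2,1]),(7,[0,3,2,1]),(8,[0,1,3,2]),(4,[0,1,3,2]),(10,[0,3,2,1]),(6,[0,3,2,1])]
   ,[(0,[0,1,3,2]),(3,[0,1,3,2]),(2,[0,1,3,2]),(1,[0,1,3,2]),(4,[0,2,1,3]),(5,[0,2,1,3]),(6,[0,2,1,3]),(7,[0,2,1,3]),(11,[0,1,2,3]),(10,[0,1,2,3]),(9,[0,1,2,3]),(8,[0,1,2,3])]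
   ,[(0,[0,1,3,2]),(3,[0,1,3,2]),(2,[0,1,3,2]),(1,[0,1,3,2]),(10,[0,3,1,2]),(5,[0,3,2,1]),(8,[0,2,3,1]),(7,[0,1,3,2]),(6,[0,3,1,2]),(9,[0,3,2,1]),(4,[0,2,3,1]),(11,[0,1,3,2])]
   ,[(0,[0,1,3,2]),(3,[0,1,3,2]),(2,[0,1,3,2]),(1,[0,1,3,2]),(10,[0,3,1,2]),(5,[0,3,2,1]),(8,[0,2,3,1]),(7,[0,1,3,2]),(6,[0,3,1,2]),(9,[0,3,2,1]),(4,[0,2,3,1]),(11,[0,1,3,2])]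
   ,[(0,[0,1,3,2]),(3,[0,1,3,2]),(2,[0,1,3,2]),(1,[0,1,3,2]),(4,[0,2,1,3]),(5,[0,2,1,3]),(6,[0,2,1,3]),(7,[0,2,1,3]),(11,[0,1,2,3]),(10,[0,1,2,3]),(9,[0,1,2,3]),(8,[0,1,2,3])]
   ,[(0,[0,1,3,2]),(3,[0,1,3,2]),(2,[0,1,3,2]),(1,[0,1,3,2]),(10,[0,3,1,2]),(5,[0,3,2,1]),(8,[0,2,3,1]),(7,[0,1,3,2]),(6,[0,3,1,2]),(9,[0,3,2,1]),(4,[0,2,3,1]),(11,[0,1,3,2])]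
   ]

end MP55T
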