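import Pool.Agent.Lib_MP_55d5ef_t.Tile

/-!
# Covering and connectivity of the tiling
-/

open Lib_MP_55d5ef_geo Lib_MP_55d5ef Lib_MP_55d5ef_q

namespace MP55T

open MP55F (KK L2 L4 muK exch_root)

/-- bilinear form of `K` (half norm polarised) -/
lemma qz_sub (u v : P3) : qz (u - v) = qz u
    - ((2 * v 0 - v 1 - v 2) * u 0 + (2 * v 1 - v 0) * u 1 + (4 * v 2 - v 0) * u 2) + qz v := by
  simp only [qz, qK, Pi.sub_apply]; ring

lemma ev_vF (n : ℤ × ℤ × ℤ) (u : P3) : ev (vF n) u = qz (u - kz (dv n)) - qz u := by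
  rw [qz_sub]
  simp only [ev, vF, kz, dv, qz, qK]
  simp
  ring

/-- lattice vectors as triples -/
def tk (k : Fin 3 → ℤ) : KK := (k 0, k 1, k 2)

lemma dv_tk (k : Fin 3 → ℤ) : dv (tk k) = k := by
  funext i; fin_cases i <;> simp [dv, tk]

/-- exchange property for real points -/
lemma exch_real (k m : Fin 3 → ℤ) (hkm : k ≠ m) : ∃ n ∈ rell,
    muK (tk (k - dv n - m)) < muK (tk (k - m)) ∧
    (∀ z : P3, qz (z - kz (k - dv n)) + qz (z - kz (m + dv n))
      ≤ qz (z - kz k) + qz (z - kz m)) := by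
  have hd : tk (k - m) ≠ 0 := by
    intro h
    apply hkm
    have h0 : k 0 - m 0 = 0 := congrArg Prod.fst h
    have h1 : k 1 - m 1 = 0 := congrArg (fun x : KK => x.2.1) h
    have h2 : k 2 - m 2 = 0 := congrArg (fun x : KK => x.2.2) h
    funext i
    fin_cases i
    · simpa using sub_eq_zero.mp h0
    · simpa using sub_eq_zero.mp h1
    · simpa using sub_eq_zero.mp h2
  obtain ⟨r, hr, hμ, hpos⟩ := exch_root (tk (k - m)) hd
  have hr' : r ∈ rell := by
    have : ∀ r, (r ∈ L2 ∨ r ∈ L4) → r ∈ rell := by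
      intro r hr
      rcases hr with hr | hr
      · fin_cases hr <;> decide
      · fin_cases hr <;> decide
    exact this r hr
  refine ⟨r, hr', ?_, ?_⟩
  · have : tk (k - dv r - m) = tk (k - m) - r := by
      obtain ⟨r1, r2, r3⟩ := r
      simp only [tk, dv, Pi.sub_apply, Prod.mk_sub_mk, Matrix.cons_val]
      refine Prod.ext ?_ (Prod.ext ?_ ?_) <;> simp <;> ring
    rw [this]; exact hμ
  · intro z
    have hposR : (0:ℝ) ≤ (2 * ((k 0 - m 0 : ℤ) - r.1 : ℝ) - ((k 1 - m 1 : ℤ) - r.2.1)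
        - ((k 2 - m 2 : ℤ) - r.2.2)) * r.1
      + (2 * ((k 1 - m 1 : ℤ) - r.2.1) - ((k 0 - m 0 : ℤ) - r.1)) * r.2.1
      + (4 * ((k 2 - m 2 : ℤ) - r.2.2) - ((k 0 - m 0 : ℤ) - r.1)) * r.2.2 := by
      have := hpos
      simp only [tk, Pi.sub_apply] at this
      exact_mod_cast this
    push_cast at hposR
    simp only [qz, qK, Pi.sub_apply, kz, dv, Pi.add_apply, Matrix.cons_val]
    push_cast
    nlinarith [hposR]

lemma Vor_shift (z : P3) (k : Fin 3 → ℤ) (n : Fin 3 → ℤ) :
    qz (z - kz (k + n)) = qz (z - kz k - kz n) := by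
  rw [kz_add, sub_add_eq_sub_sub]

/-- the twelve Voronoi inequalities suffice -/
lemma Vor_of_rel (z : P3) (k : Fin 3 → ℤ)
    (h : ∀ n ∈ rell, qz (z - kz k) ≤ qz (z - kz (k + dv n))) : z ∈ Vor k := by
  intro l
  obtain ⟨N, hN⟩ : ∃ N, muK (tk (k - l)) = N := ⟨_, rfl⟩
  induction N using Nat.strong_induction_on generalizing l with
  | _ N IH =>
    by_cases hkl : k = l
    · rw [hkl]
    obtain ⟨n, hn, hμ, hex⟩ := exch_real k l hkl
    have h1 := hex z
    have hneg : dv n ∈ Set.range dv := ⟨n, rfl⟩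
    have h2 : qz (z - kz k) ≤ qz (z - kz (k - dv n)) := by
      have hn' : (-n.1, -n.2.1, -n.2.2) ∈ rell := by
        have : ∀ n ∈ rell, (-n.1, -n.2.1, -n.2.2) ∈ rell := by decide
        exact this n hn
      have := h _ hn'
      have e : k + dv (-n.1, -n.2.1, -n.2.2) = k - dv n := by
        funext i; fin_cases i <;> simp [dv] <;> ring
      rwa [e] at this
    have h3 : qz (z - kz (l + dv n)) ≤ qz (z - kz l) := by linarith
    have h4 := IH (muK (tk (k - (l + dv n)))) (by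
      rw [← hN]
      have e : k - (l + dv n) = k - dv n - l := by abel
      rw [e]; exact hμ) (l + dv n) rfl
    exact h4.trans h3

lemma mem_vorl {f : A4} (hf : f ∈ vorl) : ∃ n ∈ rell, f = vF n := by
  simp only [vorl, List.mem_map] at hf
  obtain ⟨n, hn, rfl⟩ := hf
  exact ⟨n, hn, rfl⟩

lemma rell_get (i : ℕ) (hi : i < 12) : rell.getD i (0, 0, 0) ∈ rell := by
  revert i; decide

lemma vorl_get (i : ℕ) (hi : i < 12) : vorl.getD i 0 = vF (rell.getD i (0, 0, 0)) := by
  revert i; decide +kernel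

lemma rell_ind {n : ℤ × ℤ × ℤ} (hn : n ∈ rell) : ∃ i < 12, n = rell.getD i (0, 0, 0) := by
  have : ∀ n ∈ rell, ∃ i < 12, n = rell.getD i (0, 0, 0) := by decide +kernel
  exact this n hn

lemma ev_one4 (u : P3) : ev one4 u = 1 := by simp [ev, one4]

lemma bb_ev {z : P3} {t : Tl} {m : ℕ} (h : 0 ≤ bb t m z) :
    0 ≤ ev (br (axk t.1) t.2 m) (z - kz t.1) := by
  unfold bb at h
  have : ev (br (axk t.1) t.2 m) (z - kz t.1)
      = 6 * (ev (br (axk t.1) t.2 m) (z - kz t.1) / 6) := by ring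
  rw [this]
  exact mul_nonneg (by norm_num) h

/-- **every tile lies in its Voronoi cell** -/
theorem inVor {z : P3} {t : Tl} (h : inT z t) : z ∈ Vor t.1 := by
  apply Vor_of_rel
  intro n hn
  obtain ⟨i, hi, rfl⟩ := rell_ind hn
  have h1 := chk_iv _ (axk_lt t.1) _ h.1 _ hi
  have h2 := ck_sound h1 (u := z - kz t.1) (by
    intro f hf
    simp only [bl, List.cons_append, List.nil_append, List.mem_cons, List.not_mem_nil, or_false] at hf
    rcases hf with rfl | rfl | rfl | rfl | rfl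
    · exact bb_ev (h.2 0 (by norm_num))
    · exact bb_ev (h.2 1 (by norm_num))
    · exact bb_ev (h.2 2 (by norm_num))
    · exact bb_ev (h.2 3 (by norm_num))
    · rw [ev_one4]; norm_num)
  rw [vorl_get i hi, ev_vF] at h2
  rw [Vor_shift]
  linarith

lemma vorl_nonneg {z : P3} {k : Fin 3 → ℤ} (h : z ∈ Vor k) : ∀ f ∈ vorl, 0 ≤ ev f (z - kz k) := by
  intro f hf
  obtain ⟨n, -, rfl⟩ := mem_vorl hf
  rw [ev_vF, ← Vor_shift]
  have := h (k + dv n)
  linarith

lemma exists_sign (x : ℝ) : ∃ b < 2, 0 ≤ (sg b : ℝ) * x := by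
  rcases le_total 0 x with h | h
  · exact ⟨0, by norm_num, by simpa [sg] using h⟩
  · exact ⟨1, by norm_num, by simp [sg]; linarith⟩

lemma bb_of_ev {z : P3} {t : Tl} {m : ℕ} (h : 0 ≤ ev (br (axk t.1) t.2 m) (z - kz t.1)) :
    0 ≤ bb t m z := by
  unfold bb; exact div_nonneg h (by norm_num)

/-- **the tiles of a cell cover it** -/
theorem cover_cell {z : P3} {k : Fin 3 → ℤ} (h : z ∈ Vor k) : ∃ l, inT z (k, l) := by
  set u := z - kz k with hu
  obtain ⟨b0, hb0, s0⟩ := exists_sign (ev (xF 0) u)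
  obtain ⟨b1, hb1, s1⟩ := exists_sign (ev (xF 1) u)
  obtain ⟨b2, hb2, s2⟩ := exists_sign (ev (xF 2) u)
  obtain ⟨sd, hsd, s3⟩ := exists_sign
    (ev (sg b0 • xF 0 + sg b1 • xF 1 + sg b2 • xF 2 - one4) u)
  have hc := chk_cov _ (axk_lt k) _ hb0 _ hb1 _ hb2 _ hsd
  simp only [cvB, Bool.and_eq_true, decide_eq_true_eq] at hc
  have hH : ∀ f ∈ Hc b0 b1 b2 sd, 0 ≤ ev f u := by
    intro f hf
    simp only [Hc, List.mem_append, List.mem_cons, List.not_mem_nil, or_false] at hf
    rcases hf with (hf | rfl | rfl | rfl) | rfl | rfl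
    · exact vorl_nonneg h f hf
    · rw [ev_smul]; exact s0
    · rw [ev_smul]; exact s1
    · rw [ev_smul]; exact s2
    · unfold sF; rw [ev_smul]; exact s3
    · rw [ev_one4]; norm_num
  refine ⟨(cve (axk k) b0 b1 b2 sd).1, hc.1, fun m hm => ?_⟩
  exact bb_of_ev (ck_sound (all4_sound hc.2 m hm) hH)

/-- **cover** -/
theorem cover (z : P3) : ∃ t, inT z t := by
  obtain ⟨k, -, hk⟩ := mz_attained z
  obtain ⟨l, hl⟩ := cover_cell hk
  exact ⟨(k, l), hl⟩

/-- path inside a cell -/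
lemma path_sound {z : P3} {k : Fin 3 → ℤ} {H : List A4} (hH : ∀ f ∈ H, 0 ≤ ev f (z - kz k))
    {fin : ℕ} : ∀ (r : List (ℕ × ℕ × List ℕ)) (cur : ℕ), ckp (axk k) H fin cur r = true →
    inT z (k, cur) → Relation.ReflTransGen (adj z) (k, cur) (k, fin)
  | [], cur, h, _ => by
    simp only [ckp, decide_eq_true_eq] at h
    rw [h]
  | (m, c) :: r, cur, h, hT => by
    simp only [ckp, Bool.and_eq_true, decide_eq_true_eq] at h
    obtain ⟨⟨⟨hm, hd⟩, hc⟩, hr⟩ := h
    have h1 := ck_sound hc hH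
    rw [ev_neg] at h1
    have h2 := bb_ev (hT.2 m hm)
    have h0 : bb (k, cur) m z = 0 := by
      unfold bb
      have : ev (br (axk k) cur m) (z - kz k) = 0 := le_antisymm (by linarith) h2
      simp only
      rw [this, zero_div]
    have hn : nbr (k, cur) m = (k, (nbt (axk k) cur m).2.1) := by
      unfold nbr
      simp only [hd]
      refine Prod.ext ?_ rfl
      funext i
      fin_cases i <;> simp [dv]
    have ha : adj z (k, cur) (k, (nbt (axk k) cur m).2.1) := ⟨hT, m, hm, h0, hn.symm⟩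
    exact Relation.ReflTransGen.head ha (path_sound hH r _ hr (inT_nbr ha))

/-- tiles of one cell containing `z` are connected -/
lemma conn_cell {z : P3} {k : Fin 3 → ℤ} {l l' : ℕ} (h : inT z (k, l)) (h' : inT z (k, l')) :
    Relation.ReflTransGen (adj z) (k, l) (k, l') := by
  have hH : ∀ f ∈ bl (axk k) l ++ bl (axk k) l' ++ [one4], 0 ≤ ev f (z - kz k) := by
    intro f hf
    simp only [bl, List.mem_append, List.mem_cons, List.not_mem_nil, or_false] at hf
    rcases hf with (hf | hf) | hf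
    · rcases hf with hf | hf | hf | hf
      · rw [hf]; exact bb_ev (t := (k, l)) (m := 0) (h.2 0 (by norm_num))
      · rw [hf]; exact bb_ev (t := (k, l)) (m := 1) (h.2 1 (by norm_num))
      · rw [hf]; exact bb_ev (t := (k, l)) (m := 2) (h.2 2 (by norm_num))
      · rw [hf]; exact bb_ev (t := (k, l)) (m := 3) (h.2 3 (by norm_num))
    · rcases hf with hf | hf | hf | hf
      · rw [hf]; exact bb_ev (t := (k, l')) (m := 0) (h'.2 0 (by norm_num))
      · rw [hf]; exact bb_ev (t := (k, l')) (m := 1) (h'.2 1 (by norm_num))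
      · rw [hf]; exact bb_ev (t := (k, l')) (m := 2) (h'.2 2 (by norm_num))
      · rw [hf]; exact bb_ev (t := (k, l')) (m := 3) (h'.2 3 (by norm_num))
    · rw [hf, ev_one4]; norm_num
  have hc : ckp (axk k) (bl (axk k) l ++ bl (axk k) l' ++ [one4]) l' l (inle (axk k) l l') = true :=
    chk_in (axk k) (axk_lt k) l h.1 l' h'.1
  exact path_sound hH (inle (axk k) l l') l hc h

/-- crossing a rhombus -/
lemma cross {z : P3} {k : Fin 3 → ℤ} {n : ℤ × ℤ × ℤ} (hn : n ∈ rell) (hk : z ∈ Vor k)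
    (hk' : z ∈ Vor (k + dv n)) : ∃ l l', adj z (k, l) (k + dv n, l') := by
  obtain ⟨i, hi, rfl⟩ := rell_ind hn
  set u := z - kz k with hu
  obtain ⟨b, hb, s⟩ := exists_sign (ev (xF (cre i).1) u)
  have hc := chk_cr _ (axk_lt k) _ hi _ hb
  simp only [crB, Bool.and_eq_true, decide_eq_true_eq] at hc
  obtain ⟨⟨⟨⟨h1, h2⟩, h3⟩, h4⟩, h5⟩ := hc
  have hH : ∀ f ∈ Hx i b, 0 ≤ ev f u := by
    intro f hf
    simp only [Hx, List.mem_append, List.mem_cons, List.not_mem_nil, or_false] at hf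
    rcases hf with hf | rfl | rfl | rfl
    · exact vorl_nonneg hk f hf
    · rw [ev_neg, vorl_get i hi, ev_vF, ← Vor_shift]
      have := hk' k
      linarith
    · rw [ev_smul]; exact s
    · rw [ev_one4]; norm_num
  have hT : inT z (k, (crs i b).1) :=
    ⟨h1, fun m hm => bb_of_ev (ck_sound (all4_sound h4 m hm) hH)⟩
  have h0 : bb (k, (crs i b).1) (crs i b).2.1 z = 0 := by
    have g1 := ck_sound h5 hH
    rw [ev_neg] at g1
    have g2 := bb_ev (hT.2 _ h2)
    unfold bb
    simp only at g1 g2 ⊢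
    have : ev (br (axk k) (crs i b).1 (crs i b).2.1) (z - kz k) = 0 :=
      le_antisymm (by linarith) g2
    rw [this, zero_div]
  refine ⟨(crs i b).1, (nbt (axk k) (crs i b).1 (crs i b).2.1).2.1, hT, _, h2, h0, ?_⟩
  unfold nbr
  simp only [h3]

/-- **connectivity** -/
theorem conn {z : P3} {t t' : Tl} (h : inT z t) (h' : inT z t') :
    Relation.ReflTransGen (adj z) t t' := by
  obtain ⟨k, l⟩ := t
  obtain ⟨k', l'⟩ := t'
  obtain ⟨N, hN⟩ : ∃ N, muK (tk (k - k')) = N := ⟨_, rfl⟩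
  induction N using Nat.strong_induction_on generalizing k l with
  | _ N IH =>
    by_cases hkk : k = k'
    · subst hkk
      exact conn_cell h h'
    obtain ⟨n, hn, hμ, hex⟩ := exch_real k k' hkk
    have hk : z ∈ Vor k := inVor (t := (k, l)) h
    have hk' : z ∈ Vor k' := inVor (t := (k', l')) h'
    have e1 := (mem_Vor_iff z k).mp hk
    have e2 := (mem_Vor_iff z k').mp hk'
    have h1 := hex z
    have h2 := mz_le z (k - dv n)
    have h3 := mz_le z (k' + dv n)
    have hv : z ∈ Vor (k - dv n) := (mem_Vor_iff z _).mpr (by linarith)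
    have hn' : (-n.1, -n.2.1, -n.2.2) ∈ rell := by
      have : ∀ n ∈ rell, (-n.1, -n.2.1, -n.2.2) ∈ rell := by decide
      exact this n hn
    have e : k + dv (-n.1, -n.2.1, -n.2.2) = k - dv n := by
      funext i; fin_cases i <;> simp [dv] <;> ring
    obtain ⟨l1, l2, ha⟩ := cross hn' hk (by rw [e]; exact hv)
    rw [e] at ha
    have c1 := conn_cell h ha.1
    have c2 := IH _ (by rw [← hN]; exact hμ) (k - dv n) l2 (inT_nbr ha) rfl
    exact (c1.tail ha).trans c2

/-- connectivity in terms of gluing steps -/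
theorem conn_gst {z : P3} {t t' : Tl} (h : inT z t) (h' : inT z t') :
    Relation.ReflTransGen gst (t, fun v => bb t v z) (t', fun v => bb t' v z) := by
  have := conn h h'
  induction this with
  | refl => exact Relation.ReflTransGen.refl
  | tail hab hbc ih =>
    refine Relation.ReflTransGen.tail (ih ?_) (gst_of_adj hbc)
    exact hbc.1

end MP55T
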