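import Pool.Agent.Lib_MP_55d5ef_t.TChk
import Pool.Agent.Lib_MP_55d5ef_q.QMin
import Pool.Agent.Lib_MP_55d5ef_f.HD

/-!
# The tiling of `ℝ³` by straight tetrahedra

Tiles `(k, l)`, `k` a lattice point, `l < 12`; `vt (k, l) m` the vertices; `bb (k, l) m z` the
barycentric coordinates of `z`; `adj z`: neighbours through a facet containing `z`.
-/

open Lib_MP_55d5ef_geo Lib_MP_55d5ef Lib_MP_55d5ef_q

namespace MP55T

/-- tiles -/
abbrev Tl := (Fin 3 → ℤ) × ℕ

/-- axis of the cell `k` -/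
def axk (k : Fin 3 → ℤ) : ℕ := axl.getD (cls k) 0

lemma axl_lt : ∀ i, axl.getD i 0 < 3 := by
  intro i
  by_cases h : i < 40
  · revert i; decide +kernel
  · rw [List.getD_eq_default _ _ (by simpa [axl] using h)]; norm_num

lemma axk_lt (k : Fin 3 → ℤ) : axk k < 3 := axl_lt _

/-- a scaled vertex as a real point -/
noncomputable def rv (w : ℤ × ℤ × ℤ) : P3 := ![(w.1 : ℝ) / 10, (w.2.1 : ℝ) / 10, (w.2.2 : ℝ) / 10]

/-- vertices of the tiles -/
noncomputable def vt (t : Tl) (m : ℕ) : P3 := kz t.1 + rv (Wt (axk t.1) t.2 m)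

/-- barycentric coordinates -/
noncomputable def bb (t : Tl) (m : ℕ) (z : P3) : ℝ := ev (br (axk t.1) t.2 m) (z - kz t.1) / 6

/-- `z` lies in the tile -/
def inT (z : P3) (t : Tl) : Prop := t.2 < 12 ∧ ∀ m < 4, 0 ≤ bb t m z

/-- a triple as a lattice vector -/
def dv (d : ℤ × ℤ × ℤ) : Fin 3 → ℤ := ![d.1, d.2.1, d.2.2]

/-- neighbouring tile across the facet `m` -/
def nbr (t : Tl) (m : ℕ) : Tl :=
  (t.1 + dv (nbt (axk t.1) t.2 m).1, (nbt (axk t.1) t.2 m).2.1)

/-- vertex correspondence across the facet `m` -/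
def pmr (t : Tl) (m v : ℕ) : ℕ := pm (nbt (axk t.1) t.2 m).2.2 v

lemma kz_add (k l : Fin 3 → ℤ) : kz (k + l) = kz k + kz l := by
  funext i; simp [kz]

lemma kz_zero : kz 0 = 0 := by funext i; simp [kz]

lemma ev_rv (f : A4) (w : ℤ × ℤ × ℤ) : 10 * ev f (rv w) = (pr4 f w : ℤ) := by
  simp only [ev, rv, pr4]
  simp only [Matrix.cons_val]
  push_cast
  ring

/-- affine combination -/
lemma ev_comb4 (f : A4) (β : ℕ → ℝ) (x : ℕ → P3) (h : β 0 + β 1 + β 2 + β 3 = 1) :
    ev f (β 0 • x 0 + β 1 • x 1 + β 2 • x 2 + β 3 • x 3)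
      = β 0 * ev f (x 0) + β 1 * ev f (x 1) + β 2 * ev f (x 2) + β 3 * ev f (x 3) := by
  simp only [ev, Pi.add_apply, Pi.smul_apply, smul_eq_mul]
  have h1 : (f.1 : ℝ) = (β 0 + β 1 + β 2 + β 3) * f.1 := by rw [h, one_mul]
  conv_lhs => rw [h1]
  ring

/-- the point of a tile with given barycentric coordinates -/
noncomputable def posT (t : Tl) (β : ℕ → ℝ) : P3 :=
  β 0 • vt t 0 + β 1 • vt t 1 + β 2 • vt t 2 + β 3 • vt t 3

lemma posT_sub (t : Tl) (β : ℕ → ℝ) (h : β 0 + β 1 + β 2 + β 3 = 1) :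
    posT t β - kz t.1 = β 0 • rv (Wt (axk t.1) t.2 0) + β 1 • rv (Wt (axk t.1) t.2 1)
      + β 2 • rv (Wt (axk t.1) t.2 2) + β 3 • rv (Wt (axk t.1) t.2 3) := by
  funext i
  simp only [posT, vt, Pi.add_apply, Pi.smul_apply, smul_eq_mul, Pi.sub_apply]
  linear_combination (kz t.1 i) * h

/-- barycentric coordinates are unique -/
lemma bb_posT (t : Tl) (ht : t.2 < 12) (β : ℕ → ℝ) (h : β 0 + β 1 + β 2 + β 3 = 1)
    {m : ℕ} (hm : m < 4) : bb t m (posT t β) = β m := by
  unfold bb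
  rw [posT_sub t β h, ev_comb4 _ β (fun v => rv (Wt (axk t.1) t.2 v)) h]
  have key : ∀ v < 4, ev (br (axk t.1) t.2 m) (rv (Wt (axk t.1) t.2 v))
      = if m = v then 6 else 0 := by
    intro v hv
    have h1 := ev_rv (br (axk t.1) t.2 m) (Wt (axk t.1) t.2 v)
    rw [chk_bar _ (axk_lt t.1) _ ht _ hm _ hv] at h1
    split_ifs at h1 ⊢
    · push_cast at h1; linarith
    · push_cast at h1; linarith
  rw [key 0 (by norm_num), key 1 (by norm_num), key 2 (by norm_num), key 3 (by norm_num)]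
  interval_cases m <;> simp

/-- the barycentric coordinates sum up to one -/
lemma bb_sum (t : Tl) (ht : t.2 < 12) (z : P3) : bb t 0 z + bb t 1 z + bb t 2 z + bb t 3 z = 1 := by
  unfold bb
  have h := chk_one _ (axk_lt t.1) _ ht
  have h2 := congrArg (fun f : A4 => ev f (z - kz t.1)) h
  simp only [ev_add] at h2
  have h3 : ev ((6, 0, 0, 0) : A4) (z - kz t.1) = 6 := by simp [ev]
  rw [h3] at h2
  linarith

/-- the point is recovered from its coordinates -/
lemma posT_bb (t : Tl) (ht : t.2 < 12) (z : P3) : posT t (fun m => bb t m z) = z := by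
  have hs := bb_sum t ht z
  have h0 := posT_sub t (fun m => bb t m z) hs
  have h1 := chk_pos1 _ (axk_lt t.1) _ ht
  have h2 := chk_pos2 _ (axk_lt t.1) _ ht
  have h3 := chk_pos3 _ (axk_lt t.1) _ ht
  have e1 := congrArg (fun f : A4 => ev f (z - kz t.1)) h1
  have e2 := congrArg (fun f : A4 => ev f (z - kz t.1)) h2
  have e3 := congrArg (fun f : A4 => ev f (z - kz t.1)) h3
  simp only [ev_add, ev_smul] at e1 e2 e3
  have f1 : ev ((0, 60, 0, 0) : A4) (z - kz t.1) = 60 * (z - kz t.1) 0 := by simp [ev]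
  have f2 : ev ((0, 0, 60, 0) : A4) (z - kz t.1) = 60 * (z - kz t.1) 1 := by simp [ev]
  have f3 : ev ((0, 0, 0, 60) : A4) (z - kz t.1) = 60 * (z - kz t.1) 2 := by simp [ev]
  rw [f1] at e1
  rw [f2] at e2
  rw [f3] at e3
  have : posT t (fun m => bb t m z) - kz t.1 = z - kz t.1 := by
    rw [h0]
    funext i
    simp only [Pi.add_apply, Pi.smul_apply, smul_eq_mul, rv, bb]
    fin_cases i
    · simp at e1 ⊢
      linarith
    · simp at e2 ⊢
      linarith
    · simp at e3 ⊢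
      linarith
  exact sub_left_injective this

lemma tr10_rv (d w : ℤ × ℤ × ℤ) : rv (tr10 d w) = kz (dv d) + rv w := by
  funext i
  fin_cases i <;> simp [rv, tr10, kz, dv] <;> ring

lemma nbr_lt (t : Tl) (ht : t.2 < 12) {m : ℕ} (hm : m < 4) : (nbr t m).2 < 12 :=
  chk_nb1 _ (axk_lt t.1) _ ht _ hm

lemma pmr_lt (t : Tl) (ht : t.2 < 12) {m : ℕ} (hm : m < 4) {v : ℕ} (hv : v < 4) :
    pmr t m v < 4 := chk_nb2 _ (axk_lt t.1) _ ht _ hm _ hv

lemma pmr_inj (t : Tl) (ht : t.2 < 12) {m : ℕ} (hm : m < 4) {v w : ℕ} (hv : v < 4) (hw : w < 4)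
    (h : pmr t m v = pmr t m w) : v = w := by
  have h1 := chk_nb3 _ (axk_lt t.1) _ ht _ hm
  have h2 := all4_sound (all4_sound h1 v hv) w hw
  simp only [Bool.or_eq_true, Bool.not_eq_true', decide_eq_false_iff_not, decide_eq_true_eq] at h2
  rcases h2 with h2 | h2
  · exact absurd h h2
  · exact h2

/-- the vertices of a common facet agree -/
lemma vt_nbr (t : Tl) (ht : t.2 < 12) {m : ℕ} (hm : m < 4) {v : ℕ} (hv : v < 4) (hvm : v ≠ m) :
    vt t v = vt (nbr t m) (pmr t m v) := by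
  have key : mtB (axk t.1) t.2 m (axk (nbr t m).1) = true := by
    have h5 := chk_nb5 _ (axk_lt t.1) _ ht _ hm _ (axk_lt (nbr t m).1)
    simp only [Bool.or_eq_true, decide_eq_true_eq] at h5
    rcases h5 with h5 | h5
    · have : (nbr t m).1 = t.1 := by
        unfold nbr
        simp only [h5]
        funext i
        fin_cases i <;> simp [dv]
      rw [this]
      exact chk_nb4 _ (axk_lt t.1) _ ht _ hm
    · exact h5
  have h1 := all4_sound key v hv
  simp only [Bool.or_eq_true, decide_eq_true_eq] at h1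
  rcases h1 with h1 | h1
  · exact absurd h1 hvm
  · unfold vt
    rw [h1, tr10_rv, ← add_assoc, ← kz_add]
    rfl

/-- the four values of the permutation -/
lemma sum_pmr (t : Tl) (ht : t.2 < 12) {m : ℕ} (hm : m < 4) {M : Type*} [AddCommMonoid M]
    (f : ℕ → M) : f (pmr t m 0) + f (pmr t m 1) + f (pmr t m 2) + f (pmr t m 3)
      = f 0 + f 1 + f 2 + f 3 := by
  have h := fun v (hv : v < 4) => pmr_lt t ht hm hv
  let e : Fin 4 → Fin 4 := fun v => ⟨pmr t m v, h v v.2⟩
  have hinj : Function.Injective e := by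
    intro a b hab
    have := congrArg Fin.val hab
    exact Fin.ext (pmr_inj t ht hm a.2 b.2 this)
  have hbij : Function.Bijective e := Finite.injective_iff_bijective.mp hinj
  have hs := hbij.sum_comp (fun v : Fin 4 => f v)
  simp only [Fin.sum_univ_four] at hs
  exact hs

/-- gluing step between points of tiles -/
def gst (p q : Tl × (ℕ → ℝ)) : Prop :=
  p.1.2 < 12 ∧ ∃ m < 4, p.2 m = 0 ∧ q.1 = nbr p.1 m ∧ ∀ v < 4, q.2 (pmr p.1 m v) = p.2 v

/-- the gluing does not move the point -/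
lemma posT_gst {p q : Tl × (ℕ → ℝ)} (h : gst p q) : posT p.1 p.2 = posT q.1 q.2 := by
  obtain ⟨ht, m, hm, h0, h1, h2⟩ := h
  have e : posT q.1 q.2 = p.2 0 • vt q.1 (pmr p.1 m 0) + p.2 1 • vt q.1 (pmr p.1 m 1)
      + p.2 2 • vt q.1 (pmr p.1 m 2) + p.2 3 • vt q.1 (pmr p.1 m 3) := by
    have := sum_pmr p.1 ht hm (fun v => q.2 v • vt q.1 v)
    rw [h2 0 (by norm_num), h2 1 (by norm_num), h2 2 (by norm_num), h2 3 (by norm_num)] at this
    exact this.symm
  rw [e, h1]
  unfold posT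
  have key : ∀ v < 4, p.2 v • vt p.1 v = p.2 v • vt (nbr p.1 m) (pmr p.1 m v) := by
    intro v hv
    by_cases hvm : v = m
    · rw [hvm, h0, zero_smul, zero_smul]
    · rw [vt_nbr p.1 ht hm hv hvm]
  rw [key 0 (by norm_num), key 1 (by norm_num), key 2 (by norm_num), key 3 (by norm_num)]

/-- adjacency of tiles at `z` -/
def adj (z : P3) (t t' : Tl) : Prop := inT z t ∧ ∃ m < 4, bb t m z = 0 ∧ t' = nbr t m

/-- the coordinates in the neighbouring tile -/
lemma bb_nbr (z : P3) (t : Tl) (ht : t.2 < 12) {m : ℕ} (hm : m < 4) (h0 : bb t m z = 0)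
    {v : ℕ} (hv : v < 4) : bb (nbr t m) (pmr t m v) z = bb t v z := by
  -- inverse permutation
  have hex : ∃ g : ℕ → ℝ, ∀ v < 4, g (pmr t m v) = bb t v z := by
    classical
    refine ⟨fun w => if w = pmr t m 0 then bb t 0 z else if w = pmr t m 1 then bb t 1 z
      else if w = pmr t m 2 then bb t 2 z else bb t 3 z, ?_⟩
    intro v hv
    have n01 : pmr t m 1 ≠ pmr t m 0 := fun h => by
      have := pmr_inj t ht hm (by norm_num) (by norm_num) h; omega
    have n02 : pmr t m 2 ≠ pmr t m 0 := fun h => by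
      have := pmr_inj t ht hm (by norm_num) (by norm_num) h; omega
    have n03 : pmr t m 3 ≠ pmr t m 0 := fun h => by
      have := pmr_inj t ht hm (by norm_num) (by norm_num) h; omega
    have n12 : pmr t m 2 ≠ pmr t m 1 := fun h => by
      have := pmr_inj t ht hm (by norm_num) (by norm_num) h; omega
    have n13 : pmr t m 3 ≠ pmr t m 1 := fun h => by
      have := pmr_inj t ht hm (by norm_num) (by norm_num) h; omega
    have n23 : pmr t m 3 ≠ pmr t m 2 := fun h => by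
      have := pmr_inj t ht hm (by norm_num) (by norm_num) h; omega
    interval_cases v
    · simp
    · simp [n01]
    · simp [n02, n12]
    · simp [n03, n13, n23]
  obtain ⟨g, hg⟩ := hex
  have hst : gst (t, fun v => bb t v z) (nbr t m, g) := ⟨ht, m, hm, h0, rfl, hg⟩
  have hp := posT_gst hst
  simp only [posT_bb t ht z] at hp
  have hsum : g 0 + g 1 + g 2 + g 3 = 1 := by
    rw [← sum_pmr t ht hm g, hg 0 (by norm_num), hg 1 (by norm_num), hg 2 (by norm_num),
      hg 3 (by norm_num)]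
    exact bb_sum t ht z
  have h1 := bb_posT (nbr t m) (nbr_lt t ht hm) g hsum (pmr_lt t ht hm hv)
  rw [← hp] at h1
  rw [h1, hg v hv]

lemma pmr_surj (t : Tl) (ht : t.2 < 12) {m : ℕ} (hm : m < 4) {w : ℕ} (hw : w < 4) :
    ∃ v < 4, pmr t m v = w := by
  have h := fun v (hv : v < 4) => pmr_lt t ht hm hv
  let e : Fin 4 → Fin 4 := fun v => ⟨pmr t m v, h v v.2⟩
  have hinj : Function.Injective e := by
    intro a b hab
    have := congrArg Fin.val hab
    exact Fin.ext (pmr_inj t ht hm a.2 b.2 this)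
  obtain ⟨v, hv⟩ := (Finite.injective_iff_surjective.mp hinj) ⟨w, hw⟩
  exact ⟨v, v.2, congrArg Fin.val hv⟩

lemma inT_nbr {z : P3} {t t' : Tl} (h : adj z t t') : inT z t' := by
  obtain ⟨⟨ht, hb⟩, m, hm, h0, rfl⟩ := h
  refine ⟨nbr_lt t ht hm, fun w hw => ?_⟩
  obtain ⟨v, hv, rfl⟩ := pmr_surj t ht hm hw
  rw [bb_nbr z t ht hm h0 hv]
  exact hb v hv

/-- adjacency gives a gluing step of the coordinates -/
lemma gst_of_adj {z : P3} {t t' : Tl} (h : adj z t t') :
    gst (t, fun v => bb t v z) (t', fun v => bb t' v z) := by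
  obtain ⟨⟨ht, hb⟩, m, hm, h0, rfl⟩ := h
  exact ⟨ht, m, hm, h0, rfl, fun v hv => bb_nbr z t ht hm h0 hv⟩

end MP55T
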